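import Mathlib

/-!
# A gluing lemma for partitions

`glue S P Q` is `P` inside of `S` and `Q` outside of the closure of `S`.
-/

open Set Topology

namespace Pool.Agent.V5helper75.IndProd

universe w

variable {M : Type w} [TopologicalSpace M]

/-- `P` inside of `S`, `Q` outside of the closure of `S` -/
def glue (S P Q : Set M) : Set M := (P ∩ S) ∪ (Q \ closure S) ∪ (P ∩ Q)

theorem isOpen_glue {S P Q : Set M} (hS : IsOpen S) (hP : IsOpen P) (hQ : IsOpen Q) :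
    IsOpen (glue S P Q) :=
  ((hP.inter hS).union (hQ.sdiff isClosed_closure)).union (hP.inter hQ)

theorem frontier_glue {S P Q : Set M} (hS : IsOpen S) (hP : IsOpen P) (hQ : IsOpen Q) :
    frontier (glue S P Q) ⊆ (frontier P ∩ closure S) ∪ frontier Q ∪ frontier S := by
  intro z hz
  rw [(isOpen_glue hS hP hQ).frontier_eq] at hz
  obtain ⟨hz1, hz2⟩ := hz
  by_cases hS1 : z ∈ S
  · left; left
    have hzP : z ∉ P := fun h => hz2 (Or.inl (Or.inl ⟨h, hS1⟩))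
    refine ⟨?_, subset_closure hS1⟩
    rw [hP.frontier_eq]
    refine ⟨?_, hzP⟩
    rw [mem_closure_iff] at hz1 ⊢
    intro O hO hzO
    obtain ⟨y, hy1, hy2⟩ := hz1 (O ∩ S) (hO.inter hS) ⟨hzO, hS1⟩
    rcases hy2 with (h | h) | h
    · exact ⟨y, hy1.1, h.1⟩
    · exact absurd (subset_closure hy1.2) h.2
    · exact ⟨y, hy1.1, h.1⟩
  · by_cases hS2 : z ∈ closure S
    · right
      rw [hS.frontier_eq]
      exact ⟨hS2, hS1⟩
    · left; right
      have hzQ : z ∉ Q := fun h => hz2 (Or.inl (Or.inr ⟨h, hS2⟩))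
      rw [hQ.frontier_eq]
      refine ⟨?_, hzQ⟩
      rw [mem_closure_iff] at hz1 ⊢
      intro O hO hzO
      obtain ⟨y, hy1, hy2⟩ := hz1 (O \ closure S) (hO.sdiff isClosed_closure) ⟨hzO, hS2⟩
      rcases hy2 with (h | h) | h
      · exact absurd (subset_closure h.2) hy1.2
      · exact ⟨y, hy1.1, h.1⟩
      · exact ⟨y, hy1.1, h.2⟩

theorem closure_glue_subset (S P Q : Set M) :
    closure (glue S P Q) ⊆ (closure P ∩ closure S) ∪ closure Q := by
  have h : glue S P Q ⊆ (P ∩ S) ∪ Q := by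
    rintro z ((h | h) | h)
    · exact Or.inl h
    · exact Or.inr h.1
    · exact Or.inr h.2
  refine (closure_mono h).trans ?_
  rw [closure_union]
  exact union_subset_union_left _ (closure_inter_subset_inter_closure _ _)

/-- agreement of two sets on a set `Ω` -/
def AgreeOn (Ω S T : Set M) : Prop := ∀ z ∈ Ω, z ∈ S ↔ z ∈ T

theorem AgreeOn.closure {Ω S T : Set M} (hΩ : IsOpen Ω) (h : AgreeOn Ω S T) :
    AgreeOn Ω (closure S) (closure T) := by
  intro z hz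
  rw [mem_closure_iff, mem_closure_iff]
  constructor
  · intro H O hO hzO
    obtain ⟨y, hy1, hy2⟩ := H (O ∩ Ω) (hO.inter hΩ) ⟨hzO, hz⟩
    exact ⟨y, hy1.1, (h y hy1.2).1 hy2⟩
  · intro H O hO hzO
    obtain ⟨y, hy1, hy2⟩ := H (O ∩ Ω) (hO.inter hΩ) ⟨hzO, hz⟩
    exact ⟨y, hy1.1, (h y hy1.2).2 hy2⟩

theorem AgreeOn.symm {Ω S T : Set M} (h : AgreeOn Ω S T) : AgreeOn Ω T S :=
  fun z hz => (h z hz).symm

theorem AgreeOn.frontier {Ω S T : Set M} (hΩ : IsOpen Ω) (h : AgreeOn Ω S T) :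
    AgreeOn Ω (frontier S) (frontier T) := by
  have hc : AgreeOn Ω Sᶜ Tᶜ := fun z hz => not_congr (h z hz)
  intro z hz
  rw [frontier_eq_closure_inter_closure, frontier_eq_closure_inter_closure]
  exact and_congr (h.closure hΩ z hz) (hc.closure hΩ z hz)

theorem AgreeOn.glue {Ω S S' P P' Q Q' : Set M} (hΩ : IsOpen Ω) (h1 : AgreeOn Ω S S')
    (h2 : AgreeOn Ω P P') (h3 : AgreeOn Ω Q Q') : AgreeOn Ω (glue S P Q) (glue S' P' Q') := by
  intro z hz
  have a1 := h1 z hz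
  have a2 := h2 z hz
  have a3 := h3 z hz
  have a4 := h1.closure hΩ z hz
  simp only [IndProd.glue, mem_union, mem_inter_iff, mem_diff]
  rw [a1, a2, a3, a4]

/-- one step of the recursion -/
def stepR (R : ℕ → ℕ → Set M) (l : ℕ) (ρ : ℕ → Set M) : ℕ → Set M :=
  fun j => glue (ρ l) (R l j) (ρ j)

/-- the iterated step -/
def Phi (R : ℕ → ℕ → Set M) : ℕ → (ℕ → Set M) → (ℕ → Set M)
  | 0, ρ => ρ
  | n + 1, ρ => Phi R n (stepR R (n + 1) ρ)

/-- the frontiers of the pieces up to the index `N` -/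
def Bd (B : ℕ → Set M) (R : ℕ → ℕ → Set M) (N : ℕ) : Set M :=
  {z | ∃ j l : ℕ, j < l ∧ l ≤ N ∧ z ∈ frontier (R l j) ∧ z ∉ B l}

/-- admissible data at the level `i` on `Ω` -/
def Adm (O B : ℕ → Set M) (R : ℕ → ℕ → Set M) (N i : ℕ) (Ω : Set M) (ρ : ℕ → Set M) : Prop :=
  ∀ j < i, IsOpen (ρ j) ∧ (∀ z ∈ Ω, z ∈ O j → z ∈ ρ j) ∧
    (∀ z ∈ Ω, z ∈ closure (ρ j) → z ∉ B j) ∧ (∀ z ∈ Ω, z ∈ frontier (ρ j) → z ∈ Bd B R N)

variable {O B : ℕ → Set M} {R : ℕ → ℕ → Set M}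

theorem adm_base (hR : ∀ i j, j < i → IsOpen (R i j)) (hOB : ∀ i, ∀ z ∈ O i, z ∉ B i)
    (ha : ∀ i j, j < i → O j ⊆ R i j ∪ B i)
    (hb : ∀ i j, j < i → closure (R i j) ∩ B j ⊆ B i) (i : ℕ) :
    Adm O B R i i (O i) (R i) := by
  intro j hj
  refine ⟨hR i j hj, ?_, ?_, ?_⟩
  · intro z hz hzj
    rcases ha i j hj hzj with h | h
    · exact h
    · exact absurd h (hOB i z hz)
  · intro z hz hzc hzB
    exact hOB i z hz (hb i j hj ⟨hzc, hzB⟩)
  · intro z hz hzf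
    exact ⟨j, i, hj, le_rfl, hzf, hOB i z hz⟩

theorem adm_step (hR : ∀ i j, j < i → IsOpen (R i j))
    (ha : ∀ i j, j < i → O j ⊆ R i j ∪ B i)
    (hb : ∀ i j, j < i → closure (R i j) ∩ B j ⊆ B i) {N i : ℕ} (hN : i ≤ N)
    {Ω : Set M} {ρ : ℕ → Set M} (h : Adm O B R N (i + 1) Ω ρ) :
    Adm O B R N i Ω (stepR R i ρ) := by
  intro j hj
  obtain ⟨hi1, -, hi3, hi4⟩ := h i (Nat.lt_succ_self i)
  obtain ⟨hj1, hj2, hj3, hj4⟩ := h j (Nat.lt_succ_of_lt hj)
  refine ⟨isOpen_glue hi1 (hR i j hj) hj1, ?_, ?_, ?_⟩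
  · intro z hz hzO
    have hz2 := hj2 z hz hzO
    by_cases hc : z ∈ closure (ρ i)
    · have hzB := hi3 z hz hc
      have hzR : z ∈ R i j := by
        rcases ha i j hj hzO with h | h
        · exact h
        · exact absurd h hzB
      exact Or.inr ⟨hzR, hz2⟩
    · exact Or.inl (Or.inr ⟨hz2, hc⟩)
  · intro z hz hzc hzB
    rcases closure_glue_subset _ _ _ hzc with h' | h'
    · exact hi3 z hz h'.2 (hb i j hj ⟨h'.1, hzB⟩)
    · exact hj3 z hz h' hzB
  · intro z hz hzf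
    rcases frontier_glue hi1 (hR i j hj) hj1 hzf with (h' | h') | h'
    · exact ⟨j, i, hj, hN, h'.1, hi3 z hz h'.2⟩
    · exact hj4 z hz h'
    · exact hi4 z hz h'

theorem adm_Phi (hR : ∀ i j, j < i → IsOpen (R i j))
    (ha : ∀ i j, j < i → O j ⊆ R i j ∪ B i)
    (hb : ∀ i j, j < i → closure (R i j) ∩ B j ⊆ B i) {N : ℕ} {Ω : Set M} :
    ∀ (n : ℕ) (ρ : ℕ → Set M), n ≤ N → Adm O B R N (n + 1) Ω ρ → Adm O B R N 1 Ω (Phi R n ρ)
  | 0, ρ, _, h => h
  | n + 1, ρ, hn, h => adm_Phi hR ha hb n _ (by omega) (adm_step hR ha hb hn h)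

theorem agree_Phi {Ω : Set M} (hΩ : IsOpen Ω) :
    ∀ (n : ℕ) (ρ ρ' : ℕ → Set M), (∀ j ≤ n, AgreeOn Ω (ρ j) (ρ' j)) →
      AgreeOn Ω (Phi R n ρ 0) (Phi R n ρ' 0)
  | 0, ρ, ρ', h => h 0 le_rfl
  | n + 1, ρ, ρ', h => by
      refine agree_Phi hΩ n _ _ ?_
      intro j hj
      exact AgreeOn.glue hΩ (h (n + 1) le_rfl) (fun z _ => Iff.rfl) (h j (by omega))

/-- the iteration from the level `k + d` down to the level `k` -/
theorem Phi_down (hR : ∀ i j, j < i → IsOpen (R i j))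
    (ha : ∀ i j, j < i → O j ⊆ R i j ∪ B i)
    (hb : ∀ i j, j < i → closure (R i j) ∩ B j ⊆ B i) {N : ℕ} {Ω : Set M} (k : ℕ) :
    ∀ (d : ℕ) (ρ : ℕ → Set M), k + d ≤ N → Adm O B R N (k + d + 1) Ω ρ →
      ∃ ρ' : ℕ → Set M, Adm O B R N (k + 1) Ω ρ' ∧ Phi R (k + d) ρ = Phi R k ρ'
  | 0, ρ, _, h => ⟨ρ, h, rfl⟩
  | d + 1, ρ, hN, h => by
      obtain ⟨ρ', h1, h2⟩ := Phi_down hR ha hb k d (stepR R (k + d + 1) ρ) (by omega)
        (adm_step hR ha hb hN h)
      exact ⟨ρ', h1, h2⟩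

/-- **The gluing lemma.** -/
theorem exists_glue (hO : ∀ i, IsOpen (O i)) (hR : ∀ i j, j < i → IsOpen (R i j))
    (hOB : ∀ i, ∀ z ∈ O i, z ∉ B i)
    (ha : ∀ i j, j < i → O j ⊆ R i j ∪ B i)
    (hb : ∀ i j, j < i → closure (R i j) ∩ B j ⊆ B i) :
    ∃ W : Set M, IsOpen W ∧ ∀ i, (∀ z ∈ O (i + 1), z ∈ O 0 → z ∈ W) ∧
      (∀ z ∈ O (i + 1), z ∈ closure W → z ∉ B 0) ∧
      (∀ z ∈ O (i + 1), z ∈ frontier W → z ∈ Bd B R (i + 1)) := by
  classical
  set S : ℕ → Set M := fun i => Phi R i (R (i + 1)) 0 with hS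
  have hadm : ∀ i, Adm O B R (i + 1) 1 (O (i + 1)) (Phi R i (R (i + 1))) := fun i =>
    adm_Phi hR ha hb i _ (by omega) (adm_base hR hOB ha hb (i + 1))
  -- consistency
  have hcons : ∀ i d, AgreeOn (O (i + 1) ∩ O (i + 1 + d)) (S (i + d)) (S i) := by
    intro i d
    rcases Nat.eq_zero_or_pos d with rfl | hd
    · intro z _; rfl
    · obtain ⟨d, rfl⟩ : ∃ e, d = e + 1 := ⟨d - 1, by omega⟩
      obtain ⟨ρ', h1, h2⟩ := Phi_down (N := i + 1 + (d + 1)) (Ω := O (i + 1 + (d + 1)))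
        hR ha hb (i + 1) d (R (i + 1 + (d + 1))) (by omega)
        (by
          have := adm_base hR hOB ha hb (i + 1 + (d + 1))
          exact this)
      have h3 : S (i + (d + 1)) = Phi R (i + 1) ρ' 0 := by
        rw [hS]
        have e1 : i + (d + 1) = i + 1 + d := by omega
        have e2 : i + (d + 1) + 1 = i + 1 + (d + 1) := by omega
        simp only [e1]
        rw [← h2]
        rfl
      rw [h3]
      change AgreeOn _ (Phi R i (stepR R (i + 1) ρ') 0) (Phi R i (R (i + 1)) 0)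
      refine agree_Phi ((hO _).inter (hO _)) i _ _ ?_
      intro j hj z hz
      have hzρ : z ∈ ρ' (i + 1) := (h1 (i + 1) (by omega)).2.1 z hz.2 hz.1
      simp only [stepR, glue, mem_union, mem_inter_iff, mem_diff]
      constructor
      · rintro ((h | h) | h)
        · exact h.1
        · exact absurd (subset_closure hzρ) h.2
        · exact h.1
      · intro h
        exact Or.inl (Or.inl ⟨h, hzρ⟩)
  have hcons' : ∀ i k, AgreeOn (O (i + 1) ∩ O (k + 1)) (S i) (S k) := by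
    intro i k
    rcases le_total i k with h | h
    · obtain ⟨d, rfl⟩ := Nat.exists_eq_add_of_le h
      have := hcons i d
      intro z hz
      exact (this z ⟨hz.1, by convert hz.2 using 2; omega⟩).symm
    · obtain ⟨d, rfl⟩ := Nat.exists_eq_add_of_le h
      have := hcons k d
      intro z hz
      exact (this z ⟨hz.2, by convert hz.1 using 2; omega⟩)
  set W : Set M := {z | ∃ i, z ∈ S i ∧ z ∈ O (i + 1)} with hW
  have hSo : ∀ i, IsOpen (S i) := fun i => (hadm i 0 (by omega)).1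
  have hWag : ∀ i, AgreeOn (O (i + 1)) W (S i) := by
    intro i z hz
    constructor
    · rintro ⟨k, hk1, hk2⟩
      exact (hcons' k i z ⟨hk2, hz⟩).1 hk1
    · intro h
      exact ⟨i, h, hz⟩
  refine ⟨W, ?_, ?_⟩
  · have : W = ⋃ i, (S i ∩ O (i + 1)) := by
      ext z; simp [hW]
    rw [this]
    exact isOpen_iUnion fun i => (hSo i).inter (hO _)
  · intro i
    obtain ⟨-, h2, h3, h4⟩ := hadm i 0 (by omega)
    refine ⟨?_, ?_, ?_⟩
    · intro z hz hz0
      exact (hWag i z hz).2 (h2 z hz hz0)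
    · intro z hz hzc
      exact h3 z hz (((hWag i).closure (hO _) z hz).1 hzc)
    · intro z hz hzf
      exact h4 z hz (((hWag i).frontier (hO _) z hz).1 hzf)

end Pool.Agent.V5helper75.IndProd
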