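import Mathlib

/-!
# Sigma-discrete refinements in paracompact spaces
-/

open Set Topology

namespace Pool.Agent.V5helper75.IndProd

universe u v

theorem exists_sigmaDiscrete {T : Type u} [TopologicalSpace T] [T2Space T] [ParacompactSpace T]
    {ι : Type v} (U : ι → Set T) (hU : ∀ s, IsOpen (U s)) (hcov : ∀ t, ∃ s, t ∈ U s) :
    ∃ (V : ι → Set T) (O G : ℕ → ι → Set T), LocallyFinite V ∧ (∀ s, closure (V s) ⊆ U s) ∧
      (∀ n s, IsOpen (O n s)) ∧ (∀ n s, IsOpen (G n s)) ∧ (∀ n s, closure (O n s) ⊆ G n s) ∧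
      (∀ n s, G n s ⊆ V s) ∧ (∀ n s s', s ≠ s' → Disjoint (G n s) (G n s')) ∧
      ∀ t, ∃ n s, t ∈ O n s := by
  classical
  obtain ⟨f, hf⟩ := PartitionOfUnity.exists_isSubordinate (isClosed_univ (X := T)) U hU
    (fun t _ => mem_iUnion.2 (hcov t))
  let r : ι → ι → Prop := WellOrderingRel
  have hsupp : ∀ s, Function.support (f s) = {t | 0 < f s t} := by
    intro s
    ext t
    simp only [Function.mem_support, mem_ofPred_eq]
    constructor
    · intro h
      exact lt_of_le_of_ne (f.nonneg s t) (Ne.symm h)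
    · intro h
      exact h.ne'
  have hlf : LocallyFinite fun s => Function.support (f s) := f.locallyFinite
  have hopen : ∀ (a c : ℝ) (s : ι), 0 < c →
      IsOpen {t | a < f s t ∧ ∀ β, r β s → f β t < c} := by
    intro a c s hc
    have h1 : {t | a < f s t ∧ ∀ β, r β s → f β t < c} =
        {t | a < f s t} ∩ (⋃ β, {t | r β s ∧ c ≤ f β t})ᶜ := by
      ext t
      simp only [mem_ofPred_eq, mem_inter_iff, mem_compl_iff, mem_iUnion, not_exists, not_and,
        not_le]
    rw [h1]
    refine (isOpen_lt continuous_const (f s).continuous).inter ?_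
    rw [isOpen_compl_iff]
    refine LocallyFinite.isClosed_iUnion ?_ ?_
    · refine hlf.subset ?_
      rintro β t ⟨-, h⟩
      rw [hsupp]
      exact lt_of_lt_of_le hc h
    · intro β
      by_cases hβ : r β s
      · have : {t | r β s ∧ c ≤ f β t} = {t | c ≤ f β t} := by
          ext t; simp [hβ]
        rw [this]
        exact isClosed_le continuous_const (f β).continuous
      · have : {t | r β s ∧ c ≤ f β t} = ∅ := by
          ext t; simp [hβ]
        rw [this]
        exact isClosed_empty
  have hclosed : ∀ (a c : ℝ) (s : ι), IsClosed {t | a ≤ f s t ∧ ∀ β, r β s → f β t ≤ c} := by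
    intro a c s
    have h1 : {t | a ≤ f s t ∧ ∀ β, r β s → f β t ≤ c} =
        {t | a ≤ f s t} ∩ ⋂ β, ⋂ (_ : r β s), {t | f β t ≤ c} := by
      ext t
      simp
    rw [h1]
    refine (isClosed_le continuous_const (f s).continuous).inter ?_
    exact isClosed_iInter fun β => isClosed_iInter fun _ =>
      isClosed_le (f β).continuous continuous_const
  let δ : ℕ → ℝ := fun n => 1 / ((n : ℝ) + 1)
  have hδ : ∀ n, 0 < δ n := fun n => by positivity
  refine ⟨fun s => Function.support (f s),
    fun n s => {t | 3 / 4 * δ n < f s t ∧ ∀ β, r β s → f β t < 1 / 4 * δ n},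
    fun n s => {t | 1 / 2 * δ n < f s t ∧ ∀ β, r β s → f β t < 1 / 2 * δ n},
    hlf, fun s => hf s, fun n s => hopen _ _ _ (by have := hδ n; positivity),
    fun n s => hopen _ _ _ (by have := hδ n; positivity), ?_, ?_, ?_, ?_⟩
  · intro n s
    have h1 : {t | 3 / 4 * δ n < f s t ∧ ∀ β, r β s → f β t < 1 / 4 * δ n} ⊆
        {t | 3 / 4 * δ n ≤ f s t ∧ ∀ β, r β s → f β t ≤ 1 / 4 * δ n} :=
      fun t ht => ⟨ht.1.le, fun β hβ => (ht.2 β hβ).le⟩
    refine (closure_minimal h1 (hclosed _ _ _)).trans ?_
    intro t ht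
    have := hδ n
    exact ⟨by have := ht.1; linarith, fun β hβ => by have := ht.2 β hβ; linarith⟩
  · intro n s t ht
    show t ∈ Function.support (f s)
    rw [hsupp]
    have := hδ n
    have h2 := ht.1
    show 0 < f s t
    linarith
  · intro n s s' hs
    rw [Set.disjoint_left]
    rintro t ⟨h1, h2⟩ ⟨h3, h4⟩
    rcases trichotomous_of r s s' with h | h | h
    · have := h4 s h
      linarith
    · exact hs h
    · have := h2 s' h
      linarith
  · intro t
    have hne : ∃ s, 0 < f s t := by
      by_contra h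
      push Not at h
      have h0 : ∀ s, f s t = 0 := fun s => le_antisymm (h s) (f.nonneg s t)
      have h1 := f.sum_eq_one (mem_univ t)
      simp [h0] at h1
    have hwf : WellFounded r := (inferInstance : IsWellFounded ι WellOrderingRel).wf
    obtain ⟨s, hs, hmin⟩ := hwf.has_min {s | 0 < f s t} hne
    have h0 : ∀ β, r β s → f β t = 0 := by
      intro β hβ
      by_contra h
      exact hmin β (lt_of_le_of_ne (f.nonneg β t) (Ne.symm h)) hβ
    have hs' : 0 < f s t := hs
    obtain ⟨n, hn⟩ := exists_nat_one_div_lt hs'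
    refine ⟨n, s, ?_, ?_⟩
    · show 3 / 4 * δ n < f s t
      have h1 : δ n < f s t := hn
      have := hδ n
      linarith
    · intro β hβ
      rw [h0 β hβ]
      have := hδ n
      positivity

end Pool.Agent.V5helper75.IndProd
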