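import Pool.Agent.V5helper75.IndProd.Rect
import Pool.Agent.V5helper75.IndProd.Glue
import Pool.Agent.V5helper75.IndProd.SigmaDiscrete

/-!
# Partitions near `L × Y`, `L ⊆ X` compact
-/

open Set Topology

namespace Pool.Agent.V5helper75.IndProd

universe u v w

variable {X : Type u} {Y : Type v} [TopologicalSpace X] [TopologicalSpace Y]

/-- Locally, with respect to a continuous map of `Y` to a metric space, contained in finite unions of
closed rectangles. -/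
def YFR (K : ℕ) (S : Set (X × Y)) : Prop :=
  ∃ (T : Type u) (_ : MetricSpace T) (π : Y → T), Continuous π ∧
    ∀ τ : T, ∃ V : Set T, IsOpen V ∧ τ ∈ V ∧ FR K (S ∩ {p | π p.2 ∈ V})

theorem YFR.mono {K : ℕ} {S S' : Set (X × Y)} (h : YFR K S) (hS : S' ⊆ S) : YFR K S' := by
  obtain ⟨T, hT, π, hπ, h⟩ := h
  refine ⟨T, hT, π, hπ, fun τ => ?_⟩
  obtain ⟨V, h1, h2, h3⟩ := h τ
  exact ⟨V, h1, h2, h3.mono (inter_subset_inter_left _ hS)⟩

theorem FR.yfr {K : ℕ} {S : Set (X × Y)} (h : FR K S) : YFR K S :=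
  ⟨PUnit, inferInstance, fun _ => PUnit.unit, continuous_const, fun _ =>
    ⟨univ, isOpen_univ, trivial, h.mono inter_subset_left⟩⟩

theorem YFR.union (hX : FiniteSumTheorem X) (hY : FiniteSumTheorem Y) {K : ℕ}
    {S S' : Set (X × Y)} (h : YFR K S) (h' : YFR K S') : YFR K (S ∪ S') := by
  obtain ⟨T, hT, π, hπ, h⟩ := h
  obtain ⟨T', hT', π', hπ', h'⟩ := h'
  refine ⟨T × T', inferInstance, fun y => (π y, π' y), hπ.prodMk hπ', fun τ => ?_⟩
  obtain ⟨V, h1, h2, h3⟩ := h τ.1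
  obtain ⟨V', h1', h2', h3'⟩ := h' τ.2
  refine ⟨V ×ˢ V', h1.prod h1', ⟨h2, h2'⟩, ?_⟩
  refine (h3.union hX hY h3').mono ?_
  rintro p ⟨hp | hp, hp1, hp2⟩
  · exact Or.inl ⟨hp, hp1⟩
  · exact Or.inr ⟨hp, hp2⟩

theorem yfr_biUnion (hX : FiniteSumTheorem X) (hY : FiniteSumTheorem Y) {K : ℕ} {ι : Type*}
    (s : Finset ι) {S : ι → Set (X × Y)} (h : ∀ i ∈ s, YFR K (S i)) : YFR K (⋃ i ∈ s, S i) := by
  classical
  induction s using Finset.induction_on with
  | empty => simpa using (fr_empty (X := X) (Y := Y) K).yfr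
  | insert i s hi ih =>
    rw [Finset.set_biUnion_insert]
    exact (h i (Finset.mem_insert_self _ _)).union hX hY
      (ih fun j hj => h j (Finset.mem_insert_of_mem hj))

/-- **Partitions near `L × Y`.** -/
theorem exists_near_compact (hX : FiniteSumTheorem X) (hY : FiniteSumTheorem Y)
    [T4Space X] [T4Space (X × Y)] {K : ℕ} {M : Type w} [TopologicalSpace M] {e : M → X × Y}
    (he : IsClosedEmbedding e) {L : Set X} (hL : IsCompact L) {N : Set M} (hN : IsOpen N)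
    (hLN : ∀ z, (e z).1 ∈ L → z ∈ N) (hYFR : YFR (K + 1) (e '' N)) {A B : Set M}
    (hA : IsClosed A) (hB : IsClosed B) (hAB : Disjoint A B) :
    ∃ R N' : Set M, IsOpen R ∧ IsOpen N' ∧ (∀ z, (e z).1 ∈ L → z ∈ N') ∧
      (∀ z ∈ N', z ∈ A → z ∈ R) ∧ (∀ z ∈ N', z ∈ closure R → z ∉ B) ∧
      YFR K (e '' (frontier R ∩ N')) := by
  classical
  have hLc : CompactSpace L := isCompact_iff_compactSpace.1 hL
  obtain ⟨f, hfA, hfB, -⟩ := exists_continuous_zero_one_of_isClosed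
    (he.isClosedMap A hA) (he.isClosedMap B hB)
    ((disjoint_image_iff he.injective).2 hAB)
  -- the map to the function space
  let F : C(Y, C(L, ℝ)) := ContinuousMap.curry
    (f.comp (⟨fun q : Y × L => ((q.2 : X), q.1), by fun_prop⟩ : C(Y × L, X × Y)))
  have hF : ∀ y (x : L), F y x = f ((x : X), y) := fun y x => rfl
  obtain ⟨T, hT, π, hπ, hloc⟩ := hYFR
  choose V hV1 hV2 hV3 using hloc
  let π1 : Y → T × C(L, ℝ) := fun y => (π y, F y)
  have hπ1 : Continuous π1 := hπ.prodMk F.continuous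
  have hext : ∀ τ : T × C(L, ℝ), ∃ φ : C(X, ℝ), φ.restrict L = τ.2 := fun τ =>
    ContinuousMap.exists_restrict_eq hL.isClosed τ.2
  choose φ hφ using hext
  obtain ⟨VV, OO, GG, hlf, hVU, hOo, hGo, hOG, hGV, hdisj, hcov⟩ :=
    exists_sigmaDiscrete (T := T × C(L, ℝ)) (ι := T × C(L, ℝ))
      (fun τ => {t | t.1 ∈ V τ.1 ∧ dist t.2 τ.2 < 1 / 8})
      (fun τ => ((hV1 τ.1).preimage continuous_fst).inter
        (isOpen_lt (continuous_snd.dist continuous_const) continuous_const))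
      (fun t => ⟨t, hV2 t.1, by simp⟩)
  have happ : ∀ (τ : T × C(L, ℝ)) (y : Y), π1 y ∈ closure (VV τ) → ∀ x ∈ L,
      |f (x, y) - φ τ x| < 1 / 8 := by
    intro τ y hy x hx
    have h1 : dist (F y) τ.2 < 1 / 8 := (hVU τ hy).2
    have h2 : dist (F y ⟨x, hx⟩) (τ.2 ⟨x, hx⟩) ≤ dist (F y) τ.2 :=
      ContinuousMap.dist_apply_le_dist _
    have h3 : τ.2 ⟨x, hx⟩ = φ τ x := by
      rw [← hφ τ]
      rfl
    rw [h3, hF, Real.dist_eq] at h2
    exact lt_of_le_of_lt h2 h1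
  choose P Q hP hQ hPQ using hV3
  -- the neighbourhood of `L × Y`
  let Ns : Set (X × Y) := {p | ∀ τ, π1 p.2 ∈ closure (VV τ) → |f p - φ τ p.1| < 1 / 8}
  have hNs : IsOpen Ns := by
    have h1 : Ns = (⋃ τ, {p : X × Y | π1 p.2 ∈ closure (VV τ) ∧ 1 / 8 ≤ |f p - φ τ p.1|})ᶜ := by
      ext p
      simp only [Ns, mem_ofPred_eq, mem_compl_iff, mem_iUnion, not_exists, not_and, not_le]
    rw [h1, isOpen_compl_iff]
    refine LocallyFinite.isClosed_iUnion ?_ ?_
    · have h2 : LocallyFinite fun τ => (fun p : X × Y => π1 p.2) ⁻¹' (closure (VV τ)) :=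
        hlf.closure.preimage_continuous (hπ1.comp continuous_snd)
      exact h2.subset fun τ p hp => hp.1
    · intro τ
      refine (isClosed_closure.preimage (hπ1.comp continuous_snd)).inter ?_
      exact isClosed_le continuous_const
        ((f.continuous.sub ((φ τ).continuous.comp continuous_fst)).abs)
  let N' : Set M := N ∩ e ⁻¹' Ns
  have hN' : IsOpen N' := hN.inter (hNs.preimage he.continuous)
  have hLN' : ∀ z, (e z).1 ∈ L → z ∈ N' := fun z hz =>
    ⟨hLN z hz, fun τ hτ => happ τ (e z).2 hτ (e z).1 hz⟩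
  -- the unions
  let On : ℕ → Set Y := fun n => {y | ∃ s, π1 y ∈ OO n s}
  let Gn : ℕ → Set Y := fun n => {y | ∃ s, π1 y ∈ GG n s}
  have hOn : ∀ n, IsOpen (On n) := by
    intro n
    have : On n = ⋃ s, π1 ⁻¹' (OO n s) := by ext y; simp [On]
    rw [this]
    exact isOpen_iUnion fun s => (hOo n s).preimage hπ1
  have hGn : ∀ n, IsOpen (Gn n) := by
    intro n
    have : Gn n = ⋃ s, π1 ⁻¹' (GG n s) := by ext y; simp [Gn]
    rw [this]
    exact isOpen_iUnion fun s => (hGo n s).preimage hπ1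
  have hclO : ∀ n, closure (On n) ⊆ Gn n := by
    intro n
    have h1 : On n = π1 ⁻¹' (⋃ s, OO n s) := by ext y; simp [On]
    have h2 : LocallyFinite (OO n) :=
      hlf.subset fun s => subset_closure.trans ((hOG n s).trans (hGV n s))
    rw [h1]
    refine (hπ1.closure_preimage_subset _).trans ?_
    rw [h2.closure_iUnion]
    intro y hy
    simp only [mem_preimage, mem_iUnion] at hy
    obtain ⟨s, hs⟩ := hy
    exact ⟨s, hOG n s hs⟩
  -- the separating sets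
  have hsepX : ∀ τ : T × C(L, ℝ), ∃ R : Set (X × Y), IsOpen R ∧
      {x | φ τ x < 3 / 8} ×ˢ (univ : Set Y) ⊆ R ∧
      closure (TT (P τ.1) (Q τ.1) (K + 1) ∩ R) ⊆ {x | φ τ x < 5 / 8} ×ˢ univ ∧
      FR K (closure (TT (P τ.1) (Q τ.1) (K + 1) ∩ R) \ R) := fun τ =>
    rect_sep hX hY (C := {x | φ τ x ≤ 3 / 8}) (C' := univ) (hP τ.1) (hQ τ.1)
      (isClosed_le (φ τ).continuous continuous_const)
      isClosed_univ (isOpen_lt (φ τ).continuous continuous_const) isOpen_univ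
      (isOpen_lt (φ τ).continuous continuous_const) isOpen_univ
      (fun x (hx : φ τ x < 3 / 8) => hx.le) subset_rfl
      (fun x (hx : φ τ x ≤ 3 / 8) => lt_of_le_of_lt hx (by norm_num)) subset_rfl
  choose RX hRX1 hRX2 hRX3 hRX4 using hsepX
  have hsepY : ∀ (τ : T × C(L, ℝ)) (m : ℕ), ∃ R : Set (X × Y), IsOpen R ∧
      (univ : Set X) ×ˢ On m ⊆ R ∧
      closure (TT (P τ.1) (Q τ.1) (K + 1) ∩ R) ⊆ univ ×ˢ Gn m ∧
      FR K (closure (TT (P τ.1) (Q τ.1) (K + 1) ∩ R) \ R) := fun τ m =>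
    rect_sep hX hY (C := univ) (C' := closure (On m)) (hP τ.1) (hQ τ.1) isClosed_univ
      isClosed_closure isOpen_univ (hOn m) isOpen_univ (hGn m) subset_rfl subset_closure
      subset_rfl (hclO m)
  choose RY hRY1 hRY2 hRY3 hRY4 using hsepY
  let RR : T × C(L, ℝ) → ℕ → Set (X × Y) := fun τ j => Nat.casesOn j (RX τ) fun m => RY τ m
  have hRRo : ∀ τ j, IsOpen (RR τ j) := by
    intro τ j
    rcases j with _ | j
    · exact hRX1 τ
    · exact hRY1 τ j
  have hRRf : ∀ τ j, FR K (closure (TT (P τ.1) (Q τ.1) (K + 1) ∩ RR τ j) \ RR τ j) := by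
    intro τ j
    rcases j with _ | j
    · exact hRX4 τ
    · exact hRY4 τ j
  -- the data for the gluing lemma
  let O' : ℕ → Set M := fun n => Nat.casesOn n {z | f (e z) < 1 / 4} fun i =>
    N' ∩ {z | (e z).2 ∈ On i}
  let B' : ℕ → Set M := fun n => Nat.casesOn n {z | 3 / 4 ≤ f (e z)} fun i =>
    (N' ∩ {z | (e z).2 ∈ Gn i})ᶜ
  let R' : ℕ → ℕ → Set M := fun n j => Nat.casesOn n ∅ fun i =>
    ⋃ τ, (e ⁻¹' (RR τ j) ∩ N' ∩ {z | π1 (e z).2 ∈ GG i τ})
  have hR's : ∀ i j, R' (i + 1) j =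
      ⋃ τ, (e ⁻¹' (RR τ j) ∩ N' ∩ {z | π1 (e z).2 ∈ GG i τ}) := fun i j => rfl
  have hπe : Continuous fun z : M => π1 (e z).2 := hπ1.comp (continuous_snd.comp he.continuous)
  have hRpo : ∀ i j, IsOpen (R' (i + 1) j) := by
    intro i j
    rw [hR's]
    exact isOpen_iUnion fun τ => (((hRRo τ j).preimage he.continuous).inter hN').inter
      ((hGo i τ).preimage hπe)
  -- the closure of `R'` near a point
  have hclR : ∀ i j τ, ∀ z ∈ closure (R' (i + 1) j), π1 (e z).2 ∈ GG i τ →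
      e z ∈ closure (TT (P τ.1) (Q τ.1) (K + 1) ∩ RR τ j) := by
    intro i j τ z hz hzG
    have h1 : z ∈ closure (e ⁻¹' (RR τ j) ∩ N' ∩ {z | π1 (e z).2 ∈ GG i τ}) := by
      rw [mem_closure_iff] at hz ⊢
      intro O hO hzO
      obtain ⟨y, ⟨hy1, hy2⟩, hy3⟩ := hz (O ∩ {z | π1 (e z).2 ∈ GG i τ})
        (hO.inter ((hGo i τ).preimage hπe)) ⟨hzO, hzG⟩
      rw [hR's] at hy3
      simp only [mem_iUnion] at hy3
      obtain ⟨τ', hy4, hy5⟩ := hy3
      have h2 : τ = τ' := by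
        by_contra hne
        exact (Set.disjoint_left.1 (hdisj i τ τ' hne)) hy2 hy5
      subst h2
      exact ⟨y, hy1, hy4, hy5⟩
    have h2 : MapsTo e (e ⁻¹' (RR τ j) ∩ N' ∩ {z | π1 (e z).2 ∈ GG i τ})
        (TT (P τ.1) (Q τ.1) (K + 1) ∩ RR τ j) := by
      rintro y ⟨⟨hy1, hy2⟩, hy3⟩
      refine ⟨hPQ τ.1 ⟨⟨y, hy2.1, rfl⟩, ?_⟩, hy1⟩
      exact (hVU τ (subset_closure (hGV i τ hy3))).1
    exact h2.closure he.continuous h1
  have hNsτ : ∀ z ∈ N', ∀ i τ, π1 (e z).2 ∈ GG i τ → |f (e z) - φ τ (e z).1| < 1 / 8 :=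
    fun z hz i τ h => hz.2 τ (subset_closure (hGV i τ h))
  obtain ⟨W, hW, hW'⟩ := exists_glue (O := O') (B := B') (R := R')
    (by
      intro i
      rcases i with _ | i
      · exact isOpen_lt (f.continuous.comp he.continuous) continuous_const
      · exact hN'.inter ((hOn i).preimage (continuous_snd.comp he.continuous)))
    (by
      intro i j hij
      rcases i with _ | i
      · omega
      exact hRpo i j)
    (by
      intro i z hz hzB
      rcases i with _ | i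
      · have h1 : f (e z) < 1 / 4 := hz
        have h2 : 3 / 4 ≤ f (e z) := hzB
        linarith
      · exact hzB ⟨hz.1, hclO i (subset_closure hz.2)⟩)
    (by
      intro i j hij z hz
      rcases i with _ | i
      · omega
      by_cases hzG : z ∈ N' ∩ {z | (e z).2 ∈ Gn i}
      · left
        rw [hR's]
        obtain ⟨hzN, τ, hτ⟩ := hzG
        simp only [mem_iUnion]
        refine ⟨τ, ⟨?_, hzN⟩, hτ⟩
        rcases j with _ | j
        · refine hRX2 τ ⟨?_, trivial⟩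
          have h1 : f (e z) < 1 / 4 := hz
          have h2 := abs_lt.1 (hNsτ z hzN i τ hτ)
          show φ τ (e z).1 < 3 / 8
          linarith
        · exact hRY2 τ j ⟨trivial, hz.2⟩
      · right
        exact hzG)
    (by
      intro i j hij z hz
      rcases i with _ | i
      · omega
      obtain ⟨hz1, hz2⟩ := hz
      rintro ⟨hzN, τ, hτ⟩
      have h1 := hclR i j τ z hz1 hτ
      rcases j with _ | j
      · have h3 := (hRX3 τ h1).1
        have h4 : φ τ (e z).1 < 5 / 8 := h3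
        have h5 : 3 / 4 ≤ f (e z) := hz2
        have h2 := abs_lt.1 (hNsτ z hzN i τ hτ)
        linarith
      · exact hz2 ⟨hzN, (hRY3 τ j h1).2⟩)
  have hcov' : ∀ z ∈ N', ∃ i, z ∈ O' (i + 1) := by
    intro z hz
    obtain ⟨n, s, hs⟩ := hcov (π1 (e z).2)
    exact ⟨n, hz, s, hs⟩
  refine ⟨W, N', hW, hN', hLN', ?_, ?_, ?_⟩
  · intro z hz hzA
    obtain ⟨i, hi⟩ := hcov' z hz
    refine (hW' i).1 z hi ?_
    have h1 : f (e z) = 0 := hfA ⟨z, hzA, rfl⟩
    show f (e z) < 1 / 4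
    rw [h1]; norm_num
  · intro z hz hzc hzB
    obtain ⟨i, hi⟩ := hcov' z hz
    refine (hW' i).2.1 z hi hzc ?_
    have h1 : f (e z) = 1 := hfB ⟨z, hzB, rfl⟩
    show 3 / 4 ≤ f (e z)
    rw [h1]; norm_num
  · refine ⟨T × C(L, ℝ), inferInstance, π1, hπ1, fun τ0 => ?_⟩
    obtain ⟨n, s, hs⟩ := hcov τ0
    obtain ⟨V1, hV1n, hV1f⟩ := hlf τ0
    obtain ⟨V2, hV21, hV22, hV23⟩ := mem_nhds_iff.1 hV1n
    refine ⟨OO n s ∩ V2, (hOo n s).inter hV22, ⟨hs, hV23⟩, ?_⟩
    have hfr : FR K (⋃ q ∈ hV1f.toFinset ×ˢ Finset.range (n + 1),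
        (closure (TT (P q.1.1) (Q q.1.1) (K + 1) ∩ RR q.1 q.2) \ RR q.1 q.2)) :=
      fr_biUnion hX hY _ fun q _ => hRRf _ _
    refine hfr.mono ?_
    rintro _ ⟨⟨z, ⟨hzf, hzN⟩, rfl⟩, hzO, hzV⟩
    have hzO' : z ∈ O' (n + 1) := ⟨hzN, s, hzO⟩
    obtain ⟨j, l, hjl, hl, hzj, hzB⟩ := (hW' n).2.2 z hzO' hzf
    obtain ⟨l, rfl⟩ : ∃ k, l = k + 1 := ⟨l - 1, by omega⟩
    have hzG : z ∈ N' ∩ {z | (e z).2 ∈ Gn l} := by
      by_contra h
      exact hzB h
    obtain ⟨-, τ, hτ⟩ := hzG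
    simp only [mem_iUnion, exists_prop, Finset.mem_product, Finset.mem_range,
      Set.Finite.mem_toFinset]
    refine ⟨(τ, j), ⟨⟨π1 (e z).2, hGV l τ hτ, hV21 hzV⟩, by dsimp only; omega⟩,
      hclR l j τ z (frontier_subset_closure hzj) hτ, ?_⟩
    intro hzR
    rw [(hRpo l j).frontier_eq] at hzj
    apply hzj.2
    rw [hR's]
    simp only [mem_iUnion]
    exact ⟨τ, ⟨hzR, hzN⟩, hτ⟩

end Pool.Agent.V5helper75.IndProd
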