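import Mathlib

/-!
# The large inductive dimension, the finite sum theorem, strongly paracompact spaces
-/

open Set Topology

namespace Pool.Agent.V5helper75.IndProd

universe u v w

/-- `IndLT n X` means `Ind X ≤ n - 1`: `Ind X ≤ -1` if and only if `X` is empty, and `Ind X ≤ n` if
for every closed `A` and every open `U ⊇ A` there is an open `V` with `A ⊆ V ⊆ closure V ⊆ U` such that
`Ind` of the boundary of `V` is at most `n - 1`. -/
def IndLT : ℕ → ∀ (X : Type u) [TopologicalSpace X], Prop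
  | 0, X, _ => IsEmpty X
  | n + 1, X, _ => ∀ A U : Set X, IsClosed A → IsOpen U → A ⊆ U →
      ∃ V : Set X, IsOpen V ∧ A ⊆ V ∧ closure V ⊆ U ∧ IndLT n (frontier V)

open Classical in
/-- The large inductive dimension, with values in `{-1, 0, 1, …} ∪ {∞}`: the least integer `n ≥ -1`
with `Ind X ≤ n`, and `∞` if there is no such `n`. -/
noncomputable def Ind (X : Type u) [TopologicalSpace X] : WithTop ℤ :=
  if h : ∃ n, IndLT n X then (((Nat.find h : ℤ) - 1 : ℤ) : WithTop ℤ) else ⊤

/-- `X` satisfies the finite sum theorem for `Ind`: for every finite (nonempty) family of closed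
subsets, `Ind` of the union is at most the maximum of the values of `Ind`. -/
def FiniteSumTheorem (X : Type u) [TopologicalSpace X] : Prop :=
  ∀ (n : ℕ) (F : Fin (n + 1) → Set X), (∀ i, IsClosed (F i)) →
    Ind (⋃ i, F i : Set X) ≤ Finset.univ.sup' Finset.univ_nonempty fun i => Ind (F i)

/-- Each member of the family of sets meets only finitely many members. -/
def StarFinite {Z : Type u} (𝒱 : Set (Set Z)) : Prop :=
  ∀ V ∈ 𝒱, {W ∈ 𝒱 | (V ∩ W).Nonempty}.Finite

/-- Every open cover has a star-finite open refinement. -/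
def StronglyParacompact (Z : Type u) [TopologicalSpace Z] : Prop :=
  ∀ 𝒰 : Set (Set Z), (∀ U ∈ 𝒰, IsOpen U) → ⋃₀ 𝒰 = univ →
    ∃ 𝒱 : Set (Set Z), (∀ V ∈ 𝒱, IsOpen V) ∧ ⋃₀ 𝒱 = univ ∧ (∀ V ∈ 𝒱, ∃ U ∈ 𝒰, V ⊆ U) ∧
      StarFinite 𝒱

/-! ### Elementary facts -/

theorem indLT_zero {X : Type u} [TopologicalSpace X] : IndLT 0 X ↔ IsEmpty X := Iff.rfl

theorem indLT_succ {n : ℕ} {X : Type u} [TopologicalSpace X] :
    IndLT (n + 1) X ↔ ∀ A U : Set X, IsClosed A → IsOpen U → A ⊆ U →
      ∃ V : Set X, IsOpen V ∧ A ⊆ V ∧ closure V ⊆ U ∧ IndLT n (frontier V) := Iff.rfl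

theorem IndLT.homeo : ∀ {n : ℕ} {X : Type u} {Y : Type v} [TopologicalSpace X]
    [TopologicalSpace Y], IndLT n X → X ≃ₜ Y → IndLT n Y
  | 0, X, Y, _, _, h, e => by
      have : IsEmpty X := h
      exact e.symm.toEquiv.isEmpty
  | n + 1, X, Y, _, _, h, e => by
      intro A U hA hU hAU
      obtain ⟨V, hV1, hV2, hV3, hV4⟩ := h (e ⁻¹' A) (e ⁻¹' U) (hA.preimage e.continuous)
        (hU.preimage e.continuous) (preimage_mono hAU)
      refine ⟨e.symm ⁻¹' V, hV1.preimage e.symm.continuous, ?_, ?_, ?_⟩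
      · intro y hy
        exact hV2 (show e (e.symm y) ∈ A by rwa [e.apply_symm_apply])
      · rw [← e.symm.preimage_closure]
        intro y hy
        have := hV3 hy
        rwa [mem_preimage, e.apply_symm_apply] at this
      · refine hV4.homeo ?_
        have h1 : e '' frontier V = frontier (e.symm ⁻¹' V) := by
          rw [← e.symm.preimage_frontier, e.image_eq_preimage_symm]
        exact (e.image (frontier V)).trans (Homeomorph.setCongr h1)

theorem IndLT.of_isEmpty : ∀ {n : ℕ} {X : Type u} [TopologicalSpace X], IsEmpty X → IndLT n X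
  | 0, X, _, h => h
  | n + 1, X, _, h => by
      intro A U hA hU hAU
      refine ⟨∅, isOpen_empty, ?_, ?_, ?_⟩
      · intro x; exact h.elim x
      · simp
      · exact IndLT.of_isEmpty ⟨fun x => h.elim x.1⟩

theorem IndLT.succ : ∀ {n : ℕ} {X : Type u} [TopologicalSpace X], IndLT n X → IndLT (n + 1) X
  | 0, X, _, h => IndLT.of_isEmpty h
  | n + 1, X, _, h => by
      intro A U hA hU hAU
      obtain ⟨V, hV1, hV2, hV3, hV4⟩ := h A U hA hU hAU
      exact ⟨V, hV1, hV2, hV3, hV4.succ⟩

theorem IndLT.mono {n m : ℕ} (h : n ≤ m) {X : Type u} [TopologicalSpace X] (hX : IndLT n X) :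
    IndLT m X := by
  induction h with
  | refl => exact hX
  | step _ ih => exact ih.succ

theorem ind_le_iff {n : ℕ} {X : Type u} [TopologicalSpace X] :
    Ind X ≤ (((n : ℤ) - 1 : ℤ) : WithTop ℤ) ↔ IndLT n X := by
  classical
  unfold Ind
  split_ifs with h
  · rw [WithTop.coe_le_coe]
    constructor
    · intro h1
      have h2 : Nat.find h ≤ n := by omega
      exact (Nat.find_spec h).mono h2
    · intro h1
      have h2 : Nat.find h ≤ n := Nat.find_min' h h1
      omega
  · constructor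
    · intro h1
      simp at h1
    · intro h1
      exact absurd ⟨n, h1⟩ h

theorem ind_congr {X : Type u} {Y : Type v} [TopologicalSpace X] [TopologicalSpace Y]
    (e : X ≃ₜ Y) : Ind X = Ind Y := by
  classical
  have h : ∀ n, IndLT n X ↔ IndLT n Y := fun n => ⟨fun h => h.homeo e, fun h => h.homeo e.symm⟩
  unfold Ind
  by_cases h1 : ∃ n, IndLT n X
  · have h2 : ∃ n, IndLT n Y := h1.imp fun n hn => (h n).1 hn
    rw [dif_pos h1, dif_pos h2]
    congr 3
    exact Nat.find_congr' (fun {n} => h n)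
  · have h2 : ¬ ∃ n, IndLT n Y := fun ⟨n, hn⟩ => h1 ⟨n, (h n).2 hn⟩
    rw [dif_neg h1, dif_neg h2]

/-- the finite sum theorem for two sets, in terms of `IndLT` -/
theorem FiniteSumTheorem.union {X : Type u} [TopologicalSpace X] (h : FiniteSumTheorem X)
    {n : ℕ} {F G : Set X} (hF : IsClosed F) (hG : IsClosed G) (h1 : IndLT n F)
    (h2 : IndLT n G) : IndLT n (F ∪ G : Set X) := by
  have h3 := h 1 ![F, G] (by intro i; fin_cases i <;> simp [hF, hG])
  have h4 : (⋃ i, (![F, G] : Fin 2 → Set X) i) = F ∪ G := by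
    ext x
    simp [mem_iUnion, Fin.exists_fin_two]
  rw [← ind_le_iff] at h1 h2 ⊢
  rw [← h4]
  refine h3.trans ?_
  rw [Finset.sup'_le_iff]
  intro i _
  fin_cases i
  · exact h1
  · exact h2

end Pool.Agent.V5helper75.IndProd
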