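import Pool.Agent.V5helper75.IndProd.Compact

/-!
# `Ind (X × Y) ≤ Ind X + Ind Y` for paracompact sigma-locally compact `X`
-/

open Set Topology

namespace Pool.Agent.V5helper75.IndProd

universe u v w

variable {X : Type u} {Y : Type v} [TopologicalSpace X] [TopologicalSpace Y]

/-- a paracompact sigma-locally compact space is the union of countably many discrete unions of
compact sets -/
theorem exists_centers [T2Space X] [ParacompactSpace X]
    (F : ℕ → Set X) (hF : ∀ i, IsClosed (F i)) (hFl : ∀ i, LocallyCompactSpace (F i))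
    (hFu : ⋃ i, F i = univ) :
    ∃ C O : ℕ → X → Set X, (∀ i t, IsCompact (C i t)) ∧ (∀ i t, IsOpen (O i t)) ∧
      (∀ i t, C i t ⊆ O i t) ∧ (∀ i, LocallyFinite (O i)) ∧
      (∀ i t t', t ≠ t' → Disjoint (O i t) (O i t')) ∧ ∀ x, ∃ i t, x ∈ C i t := by
  classical
  have h1 : ∀ (i : ℕ) (x : X), ∃ U : Set X, IsOpen U ∧ x ∈ U ∧
      ∃ L : Set X, IsCompact L ∧ U ∩ F i ⊆ L := by
    intro i x
    by_cases hx : x ∈ F i
    · obtain ⟨L, hL1, hL2⟩ := exists_compact_mem_nhds (⟨x, hx⟩ : F i)
      obtain ⟨V, hV1, hV2, hV3⟩ := mem_nhds_iff.1 hL2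
      obtain ⟨U, hU, rfl⟩ := isOpen_induced_iff.1 hV2
      refine ⟨U, hU, hV3, Subtype.val '' L, hL1.image continuous_subtype_val, ?_⟩
      rintro y ⟨hy1, hy2⟩
      exact ⟨⟨y, hy2⟩, hV1 hy1, rfl⟩
    · refine ⟨(F i)ᶜ, (hF i).isOpen_compl, hx, ∅, isCompact_empty, ?_⟩
      rintro y ⟨hy1, hy2⟩
      exact absurd hy2 hy1
  choose U hU1 hU2 L hL hUL using h1
  have h2 := fun i => exists_sigmaDiscrete (U i) (hU1 i) (fun x => ⟨x, hU2 i x⟩)
  choose V OO GG hlf hVU hOo hGo hOG hGV hdisj hcov using h2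
  refine ⟨fun k s => closure (OO k.unpair.1 k.unpair.2 s) ∩ F k.unpair.1,
    fun k s => GG k.unpair.1 k.unpair.2 s, ?_, ?_, ?_, ?_, ?_, ?_⟩
  · intro k s
    refine (hL k.unpair.1 s).of_isClosed_subset (isClosed_closure.inter (hF _)) ?_
    refine (inter_subset_inter_left _ ?_).trans (hUL _ _)
    exact (hOG _ _ _).trans ((hGV _ _ _).trans (subset_closure.trans (hVU _ _)))
  · intro k s
    exact hGo _ _ _
  · intro k s
    exact inter_subset_left.trans (hOG _ _ _)
  · intro k
    exact (hlf k.unpair.1).subset fun s => hGV _ _ s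
  · intro k s s' hs
    exact hdisj _ _ _ _ hs
  · intro x
    have hx : x ∈ ⋃ i, F i := by rw [hFu]; trivial
    obtain ⟨i, hi⟩ := mem_iUnion.1 hx
    obtain ⟨n, s, hs⟩ := hcov i x
    refine ⟨Nat.pair i n, s, ?_, ?_⟩
    · simp only [Nat.unpair_pair]
      exact subset_closure hs
    · simp only [Nat.unpair_pair]
      exact hi

/-- a compact set has a neighbourhood which meets only finitely many members -/
theorem exists_nhds_finite {ι : Type*} {f : ι → Set X} (hf : LocallyFinite f) {L : Set X}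
    (hL : IsCompact L) : ∃ U : Set X, IsOpen U ∧ L ⊆ U ∧ {s | (f s ∩ U).Nonempty}.Finite := by
  refine hL.induction_on (p := fun L => ∃ U : Set X, IsOpen U ∧ L ⊆ U ∧
    {s | (f s ∩ U).Nonempty}.Finite) ?_ ?_ ?_ ?_
  · exact ⟨∅, isOpen_empty, Subset.rfl, by simp⟩
  · rintro s t hst ⟨U, h1, h2, h3⟩
    exact ⟨U, h1, hst.trans h2, h3⟩
  · rintro s t ⟨U, h1, h2, h3⟩ ⟨U', h1', h2', h3'⟩
    refine ⟨U ∪ U', h1.union h1', union_subset_union h2 h2', (h3.union h3').subset ?_⟩
    rintro i ⟨x, hx1, hx2 | hx2⟩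
    · exact Or.inl ⟨x, hx1, hx2⟩
    · exact Or.inr ⟨x, hx1, hx2⟩
  · intro x _
    obtain ⟨V, hV, hVf⟩ := hf x
    obtain ⟨U, hUV, hU, hxU⟩ := mem_nhds_iff.1 hV
    refine ⟨U, mem_nhdsWithin_of_mem_nhds (hU.mem_nhds hxU), U, hU, Subset.rfl, hVf.subset ?_⟩
    rintro i ⟨y, hy1, hy2⟩
    exact ⟨y, hy1, hUV hy2⟩

/-- partitions near a discrete union of compact sets -/
theorem exists_near_discrete (hX : FiniteSumTheorem X) (hY : FiniteSumTheorem Y)
    [T4Space X] [T4Space (X × Y)] {C O : X → Set X} (hC : ∀ t, IsCompact (C t))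
    (hO : ∀ t, IsOpen (O t)) (hCO : ∀ t, C t ⊆ O t)
    (hdisj : ∀ t t', t ≠ t' → Disjoint (O t) (O t'))
    {K : ℕ} {M : Type w} [TopologicalSpace M] {e : M → X × Y} (he : IsClosedEmbedding e)
    (hloc : ∀ t, ∃ N : Set M, IsOpen N ∧ (∀ z, (e z).1 ∈ C t → z ∈ N) ∧ YFR (K + 1) (e '' N))
    (p : Set M × Set M) :
    ∃ R N' : Set M, IsClosed p.1 → IsClosed p.2 → Disjoint p.1 p.2 →
      (IsOpen R ∧ IsOpen N' ∧ (∀ z, (∃ t, (e z).1 ∈ C t) → z ∈ N') ∧
      (∀ z ∈ N', ∃ t, (e z).1 ∈ O t) ∧
      (∀ z ∈ N', z ∈ p.1 → z ∈ R) ∧ (∀ z ∈ N', z ∈ closure R → z ∉ p.2) ∧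
      ∀ t, YFR K (e '' (frontier R ∩ N' ∩ {z | (e z).1 ∈ O t}))) := by
  classical
  by_cases hp : IsClosed p.1 ∧ IsClosed p.2 ∧ Disjoint p.1 p.2
  swap
  · exact ⟨∅, ∅, fun h1 h2 h3 => absurd ⟨h1, h2, h3⟩ hp⟩
  obtain ⟨hA, hB, hAB⟩ := hp
  choose N hN1 hN2 hN3 using hloc
  choose R N' hR1 hR2 hR3 hR4 hR5 hR6 using fun t =>
    exists_near_compact hX hY he (hC t) (hN1 t) (hN2 t) (hN3 t) hA hB hAB
  have hOe : ∀ t, IsOpen {z : M | (e z).1 ∈ O t} := fun t =>
    (hO t).preimage (continuous_fst.comp he.continuous)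
  refine ⟨⋃ t, (R t ∩ {z | (e z).1 ∈ O t}), ⋃ t, (N' t ∩ {z | (e z).1 ∈ O t}),
    fun _ _ _ => ⟨?_, ?_, ?_, ?_, ?_, ?_, ?_⟩⟩
  · exact isOpen_iUnion fun t => (hR1 t).inter (hOe t)
  · exact isOpen_iUnion fun t => (hR2 t).inter (hOe t)
  · rintro z ⟨t, ht⟩
    exact mem_iUnion.2 ⟨t, hR3 t z ht, hCO t ht⟩
  · intro z hz
    obtain ⟨t, -, ht⟩ := mem_iUnion.1 hz
    exact ⟨t, ht⟩
  · intro z hz hzA
    obtain ⟨t, h1, ht⟩ := mem_iUnion.1 hz
    exact mem_iUnion.2 ⟨t, hR4 t z h1 hzA, ht⟩
  · intro z hz hzc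
    obtain ⟨t, h1, ht⟩ := mem_iUnion.1 hz
    refine hR5 t z h1 ?_
    rw [mem_closure_iff] at hzc ⊢
    intro V hV hzV
    obtain ⟨y, ⟨hy1, hy2⟩, hy3⟩ := hzc (V ∩ {z | (e z).1 ∈ O t}) (hV.inter (hOe t)) ⟨hzV, ht⟩
    obtain ⟨t', hy4, hy5⟩ := mem_iUnion.1 hy3
    have : t = t' := by
      by_contra hne
      exact (Set.disjoint_left.1 (hdisj t t' hne)) hy2 hy5
    subst this
    exact ⟨y, hy1, hy4⟩
  · intro t
    refine (hR6 t).mono (image_mono ?_)
    rintro z ⟨⟨hz1, hz2⟩, hz3⟩
    have hag : AgreeOn {z | (e z).1 ∈ O t} (⋃ t, (R t ∩ {z | (e z).1 ∈ O t})) (R t) := by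
      intro y hy
      constructor
      · intro h
        obtain ⟨t', hy4, hy5⟩ := mem_iUnion.1 h
        have : t = t' := by
          by_contra hne
          exact (Set.disjoint_left.1 (hdisj t t' hne)) hy hy5
        subst this
        exact hy4
      · intro h
        exact mem_iUnion.2 ⟨t, h, hy⟩
    refine ⟨(hag.frontier (hOe t) z hz3).1 hz1, ?_⟩
    obtain ⟨t', h1, ht'⟩ := mem_iUnion.1 hz2
    have : t = t' := by
      by_contra hne
      exact (Set.disjoint_left.1 (hdisj t t' hne)) hz3 ht'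
    subst this
    exact h1

/-- **Main lemma.** -/
theorem indLT_of_centers (hX : FiniteSumTheorem X) (hY : FiniteSumTheorem Y)
    [T4Space X] [T4Space (X × Y)] {C O : ℕ → X → Set X} (hC : ∀ i t, IsCompact (C i t))
    (hO : ∀ i t, IsOpen (O i t)) (hCO : ∀ i t, C i t ⊆ O i t)
    (hlf : ∀ i, LocallyFinite (O i))
    (hdisj : ∀ i t t', t ≠ t' → Disjoint (O i t) (O i t')) (hcov : ∀ x, ∃ i t, x ∈ C i t) :
    ∀ (K : ℕ) (M : Type w) [TopologicalSpace M] (e : M → X × Y), IsClosedEmbedding e →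
      (∀ i t, ∃ N : Set M, IsOpen N ∧ (∀ z, (e z).1 ∈ C i t → z ∈ N) ∧ YFR K (e '' N)) →
      IndLT K M
  | 0, M, _, e, he, hloc => by
      refine ⟨fun z => ?_⟩
      obtain ⟨i, t, hit⟩ := hcov (e z).1
      obtain ⟨N, -, hN2, T, hT, π, hπ, h⟩ := hloc i t
      obtain ⟨V, hV1, hV2, hV3⟩ := h (π (e z).2)
      have h1 := fr_zero hV3
      have h2 : e z ∈ e '' N ∩ {p | π p.2 ∈ V} := ⟨⟨z, hN2 z hit, rfl⟩, hV2⟩
      rw [h1] at h2
      exact h2
  | K + 1, M, _, e, he, hloc => by
      classical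
      intro A U hA hU hAU
      have : NormalSpace M := he.normalSpace
      obtain ⟨O0, hO0, hAO0, hO0U⟩ := normal_exists_closure_subset hA hU hAU
      choose Rf Nf hf using fun i => exists_near_discrete hX hY (hC i) (hO i) (hCO i) (hdisj i) he
        (hloc i)
      -- the closed sets over the centers
      let Z : ℕ → Set M := fun i => {z | ∃ t, (e z).1 ∈ C i t}
      have hZ : ∀ i, IsClosed (Z i) := by
        intro i
        have h1 : Z i = (fun z => (e z).1) ⁻¹' (⋃ t, C i t) := by
          ext z; simp [Z]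
        rw [h1]
        refine IsClosed.preimage (continuous_fst.comp he.continuous) ?_
        exact ((hlf i).subset (hCO i)).isClosed_iUnion fun t => (hC i t).isClosed
      -- the recursive construction
      let ch : ℕ → Set M → Set M := fun n N =>
        if h : ∃ O' : Set M, IsOpen O' ∧ Z n ⊆ O' ∧ closure O' ⊆ N then h.choose else ∅
      have hch : ∀ n N, (∃ O' : Set M, IsOpen O' ∧ Z n ⊆ O' ∧ closure O' ⊆ N) →
          IsOpen (ch n N) ∧ Z n ⊆ ch n N ∧ closure (ch n N) ⊆ N := by
        intro n N h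
        simp only [ch, dif_pos h]
        exact h.choose_spec
      let NN : (n : ℕ) → ((j : ℕ) → j < n + 1 → Set M × Set M) → Set M := fun n prev =>
        ⋂ j, ⋂ (h : j < n + 1), Nf n (closure (prev j h).1, (prev j h).2)
      let step : (n : ℕ) → ((j : ℕ) → j < n → Set M × Set M) → Set M × Set M := fun n =>
        match n with
        | 0 => fun _ => (O0, Uᶜ)
        | n + 1 => fun prev => (ch n (NN n prev), (NN n prev)ᶜ)
      let D : ℕ → Set M × Set M := fun n => Nat.lt_wfRel.wf.fix step n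
      have hD : ∀ n, D n = step n (fun j _ => D j) := fun n => WellFounded.fix_eq _ _ _
      have hD0 : D 0 = (O0, Uᶜ) := hD 0
      let NS : ℕ → Set M := fun n => ⋂ j, ⋂ (_ : j < n + 1), Nf n (closure (D j).1, (D j).2)
      have hDs : ∀ n, D (n + 1) = (ch n (NS n), (NS n)ᶜ) := fun n => hD (n + 1)
      -- the invariants
      have hinv : ∀ n, IsOpen (D n).1 ∧ IsClosed (D n).2 ∧ Disjoint (closure (D n).1) (D n).2 ∧
          (∀ m, n = m + 1 → IsOpen (NS m) ∧ Z m ⊆ (D n).1) := by
        intro n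
        induction n using Nat.strong_induction_on with
        | _ n ih =>
          rcases n with _ | n
          · rw [hD0]
            refine ⟨hO0, hU.isClosed_compl, ?_, fun m hm => by omega⟩
            rw [Set.disjoint_left]
            intro z hz hz2
            exact hz2 (hO0U hz)
          · have h1 : ∀ j, j < n + 1 → IsOpen (Nf n (closure (D j).1, (D j).2)) ∧
                Z n ⊆ Nf n (closure (D j).1, (D j).2) := by
              intro j hj
              obtain ⟨h2, h3, h4, -⟩ := ih j hj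
              have h5 := hf n (closure (D j).1, (D j).2) isClosed_closure h3 h4
              exact ⟨h5.2.1, fun z hz => h5.2.2.1 z hz⟩
            have h2 : IsOpen (NS n) := by
              have h3 : NS n = ⋂ j ∈ Finset.range (n + 1), Nf n (closure (D j).1, (D j).2) := by
                simp only [NS, Finset.mem_range]
              rw [h3]
              exact isOpen_biInter_finset fun j hj => (h1 j (Finset.mem_range.1 hj)).1
            have h3 : Z n ⊆ NS n := subset_iInter₂ fun j hj => (h1 j hj).2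
            obtain ⟨h4, h5, h6⟩ := hch n (NS n) (normal_exists_closure_subset (hZ n) h2 h3)
            rw [hDs]
            refine ⟨h4, h2.isClosed_compl, ?_, ?_⟩
            · rw [Set.disjoint_left]
              intro z hz hz2
              exact hz2 (h6 hz)
            · intro m hm
              obtain rfl : n = m := by omega
              exact ⟨h2, h5⟩
      let R' : ℕ → ℕ → Set M := fun n j => Nat.casesOn n ∅ fun i =>
        Rf i (closure (D j).1, (D j).2)
      have hR's : ∀ i j, R' (i + 1) j = Rf i (closure (D j).1, (D j).2) := fun i j => rfl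
      have hfj : ∀ i j, _ := fun i j =>
        hf i (closure (D j).1, (D j).2) isClosed_closure (hinv j).2.1 (hinv j).2.2.1
      have hNSj : ∀ i j, j < i + 1 → NS i ⊆ Nf i (closure (D j).1, (D j).2) := by
        intro i j hj z hz
        simp only [NS, mem_iInter] at hz
        exact hz j hj
      obtain ⟨W, hW, hW'⟩ := exists_glue (O := fun n => (D n).1) (B := fun n => (D n).2)
        (R := R') (fun i => (hinv i).1)
        (by
          intro i j hij
          rcases i with _ | i
          · omega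
          exact (hfj i j).1)
        (by
          intro i z hz hzB
          exact (Set.disjoint_left.1 (hinv i).2.2.1) (subset_closure hz) hzB)
        (by
          intro i j hij z hz
          rcases i with _ | i
          · omega
          by_cases hzN : z ∈ NS i
          · left
            exact (hfj i j).2.2.2.2.1 z (hNSj i j hij hzN) (subset_closure hz)
          · right
            rw [hDs]
            exact hzN)
        (by
          intro i j hij z hz
          rcases i with _ | i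
          · omega
          obtain ⟨hz1, hz2⟩ := hz
          simp only [hDs]
          intro hzN
          exact (hfj i j).2.2.2.2.2.1 z (hNSj i j hij hzN) hz1 hz2)
      have hZW : ∀ z, ∃ i, z ∈ (D (i + 1)).1 := by
        intro z
        obtain ⟨i, t, hit⟩ := hcov (e z).1
        exact ⟨i, ((hinv (i + 1)).2.2.2 i rfl).2 ⟨t, hit⟩⟩
      simp only [hD0] at hW'
      refine ⟨W, hW, ?_, ?_, ?_⟩
      · intro z hz
        obtain ⟨i, hi⟩ := hZW z
        exact (hW' i).1 z hi (hAO0 hz)
      · intro z hz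
        obtain ⟨i, hi⟩ := hZW z
        by_contra hzU
        exact (hW' i).2.1 z hi hz hzU
      · refine indLT_of_centers hX hY hC hO hCO hlf hdisj hcov K (frontier W) (fun z => e z.1)
          (he.comp isClosed_frontier.isClosedEmbedding_subtypeVal) ?_
        intro i t
        choose UU hUU1 hUU2 hUU3 using fun l => exists_nhds_finite (hlf l) (hC i t)
        let Os : Set X := ⋂ l ∈ Finset.range (i + 1), UU l
        have hOs : IsOpen Os := isOpen_biInter_finset fun l _ => hUU1 l
        have hCOs : C i t ⊆ Os := subset_iInter₂ fun l _ => hUU2 l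
        refine ⟨Subtype.val ⁻¹' ((D (i + 1)).1 ∩ {z | (e z).1 ∈ Os}),
          (((hinv (i + 1)).1).inter (hOs.preimage (continuous_fst.comp he.continuous))).preimage
            continuous_subtype_val, ?_, ?_⟩
        · rintro ⟨z, hz⟩ hzC
          exact ⟨((hinv (i + 1)).2.2.2 i rfl).2 ⟨t, hzC⟩, hCOs hzC⟩
        · let Fs : Finset X := (Finset.range (i + 1)).biUnion fun l => (hUU3 l).toFinset
          have hy : YFR K (⋃ q ∈ (Finset.range (i + 1) ×ˢ Finset.range (i + 1)) ×ˢ Fs,
              e '' (frontier (Rf q.1.1 (closure (D q.1.2).1, (D q.1.2).2)) ∩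
                Nf q.1.1 (closure (D q.1.2).1, (D q.1.2).2) ∩
                {z | (e z).1 ∈ O q.1.1 q.2})) :=
            yfr_biUnion hX hY _ fun q _ => (hfj q.1.1 q.1.2).2.2.2.2.2.2 q.2
          refine hy.mono ?_
          rintro _ ⟨⟨z, hzf⟩, ⟨hz1, hz2⟩, rfl⟩
          obtain ⟨j, l, hjl, hl, hzj, hzB⟩ := (hW' i).2.2 z hz1 hzf
          obtain ⟨l, rfl⟩ : ∃ k, l = k + 1 := ⟨l - 1, by omega⟩
          have hzN : z ∈ NS l := by
            by_contra h
            apply hzB
            simp only [hDs]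
            exact h
          have hzN' := hNSj l j hjl hzN
          obtain ⟨s, hs⟩ := (hfj l j).2.2.2.1 z hzN'
          simp only [mem_iUnion, exists_prop, Finset.mem_product, Finset.mem_range]
          refine ⟨((l, j), s), ⟨⟨by dsimp only; omega, by dsimp only; omega⟩, ?_⟩,
            ⟨z, ⟨⟨hzj, hzN'⟩, hs⟩, rfl⟩⟩
          simp only [Fs, Finset.mem_biUnion, Finset.mem_range, Set.Finite.mem_toFinset]
          have hl' : l < i + 1 := by omega
          refine ⟨l, hl', ⟨(e z).1, hs, ?_⟩⟩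
          have : (e z).1 ∈ Os := hz2
          simp only [Os, mem_iInter, Finset.mem_range] at this
          exact this l hl'

end Pool.Agent.V5helper75.IndProd
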