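import Pool.Agent.V5helper75.IndProd.Defs

/-!
# Star-finite covers and partitions into open and closed sets
-/

open Set Topology

namespace Pool.Agent.V5helper75.IndProd

universe u v w

theorem StronglyParacompact.of_closedEmbedding {M : Type w} {Z : Type u} [TopologicalSpace M]
    [TopologicalSpace Z] (hZ : StronglyParacompact Z) {e : M → Z} (he : IsClosedEmbedding e) :
    StronglyParacompact M := by
  intro 𝒰 h𝒰 hcov
  set 𝒰' : Set (Set Z) := {U | IsOpen U ∧ (e ⁻¹' U ∈ 𝒰 ∨ U = (range e)ᶜ)} with h𝒰'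
  obtain ⟨𝒱, h1, h2, h3, h4⟩ := hZ 𝒰' (fun U hU => hU.1) (by
    rw [eq_univ_iff_forall]
    intro z
    by_cases hz : z ∈ range e
    · obtain ⟨x, rfl⟩ := hz
      have hx : x ∈ ⋃₀ 𝒰 := by rw [hcov]; trivial
      obtain ⟨U, hU, hxU⟩ := hx
      obtain ⟨O, hO, rfl⟩ := he.isInducing.isOpen_iff.1 (h𝒰 U hU)
      exact ⟨O, ⟨hO, Or.inl hU⟩, hxU⟩
    · exact ⟨(range e)ᶜ, ⟨he.isClosed_range.isOpen_compl, Or.inr rfl⟩, hz⟩)
  refine ⟨{W | ∃ V ∈ 𝒱, W = e ⁻¹' V ∧ W.Nonempty}, ?_, ?_, ?_, ?_⟩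
  · rintro W ⟨V, hV, rfl, -⟩
    exact (h1 V hV).preimage he.continuous
  · rw [eq_univ_iff_forall]
    intro x
    have hx : e x ∈ ⋃₀ 𝒱 := by rw [h2]; trivial
    obtain ⟨V, hV, hxV⟩ := hx
    exact ⟨e ⁻¹' V, ⟨V, hV, rfl, ⟨x, hxV⟩⟩, hxV⟩
  · rintro W ⟨V, hV, rfl, ⟨x, hx⟩⟩
    obtain ⟨U, ⟨hU1, hU2⟩, hVU⟩ := h3 V hV
    rcases hU2 with h | h
    · exact ⟨_, h, preimage_mono hVU⟩
    · exfalso
      have := hVU hx
      rw [h] at this
      exact this (mem_range_self x)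
  · rintro W ⟨V, hV, rfl, -⟩
    refine ((h4 V hV).image fun T => e ⁻¹' T).subset ?_
    rintro W' ⟨⟨V', hV', rfl, -⟩, ⟨x, hx1, hx2⟩⟩
    exact ⟨V', ⟨hV', ⟨e x, hx1, hx2⟩⟩, rfl⟩

/-- In a strongly paracompact space every open cover is countable on the pieces of a partition into
open sets. -/
theorem StronglyParacompact.exists_partition {M : Type w} [TopologicalSpace M]
    (hM : StronglyParacompact M) {O : M → Set M} (hO : ∀ z, IsOpen (O z)) (hz : ∀ z, z ∈ O z) :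
    ∃ (C : Type w) (κ : M → C), (∀ z, IsOpen {z' | κ z' = κ z}) ∧
      ∀ z, ∃ ζ : ℕ → M, ∀ z', κ z' = κ z → ∃ i, z' ∈ O (ζ i) := by
  classical
  obtain ⟨𝒱, h1, h2, h3, h4⟩ := hM (range O) (by rintro _ ⟨z, rfl⟩; exact hO z) (by
    rw [eq_univ_iff_forall]
    intro z
    exact ⟨O z, ⟨z, rfl⟩, hz z⟩)
  have hcov : ∀ z : M, ∃ V ∈ 𝒱, z ∈ V := by
    intro z
    have : z ∈ ⋃₀ 𝒱 := by rw [h2]; trivial
    exact this
  let r : M → M → Prop := fun z z' => ∃ V ∈ 𝒱, z ∈ V ∧ z' ∈ V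
  have hsymm : ∀ z z', r z z' → r z' z := fun z z' ⟨V, hV, a, b⟩ => ⟨V, hV, b, a⟩
  have hst : ∀ {a b : M}, Relation.ReflTransGen r a b → Relation.ReflTransGen r b a := by
    intro a b h
    induction h with
    | refl => exact Relation.ReflTransGen.refl
    | tail _ h2 ih => exact Relation.ReflTransGen.head (hsymm _ _ h2) ih
  let s : Setoid M := ⟨Relation.ReflTransGen r,
    ⟨fun z => Relation.ReflTransGen.refl, fun h => hst h, fun h h' => h.trans h'⟩⟩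
  refine ⟨Quotient s, Quotient.mk s, ?_, ?_⟩
  · intro z
    rw [isOpen_iff_mem_nhds]
    intro z' hz'
    obtain ⟨V, hV, hzV⟩ := hcov z'
    filter_upwards [(h1 V hV).mem_nhds hzV] with y hy
    have h5 : (Quotient.mk s y) = Quotient.mk s z' :=
      Quotient.sound (Relation.ReflTransGen.single ⟨V, hV, hy, hzV⟩)
    exact h5.trans hz'
  · intro z
    -- the members reached in `n` steps
    let F : ℕ → Set (Set M) := fun n => Nat.rec {V ∈ 𝒱 | z ∈ V}
      (fun _ G => {W ∈ 𝒱 | ∃ V ∈ G, (V ∩ W).Nonempty}) n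
    have hFsucc : ∀ n, F (n + 1) = {W ∈ 𝒱 | ∃ V ∈ F n, (V ∩ W).Nonempty} := fun n => rfl
    have hFsub : ∀ n, F n ⊆ 𝒱 := by
      intro n
      cases n with
      | zero => exact fun V hV => hV.1
      | succ n => exact fun V hV => hV.1
    have hFfin : ∀ n, (F n).Finite := by
      intro n
      induction n with
      | zero =>
        obtain ⟨V0, hV0, hzV0⟩ := hcov z
        refine (h4 V0 hV0).subset ?_
        rintro W ⟨hW, hzW⟩
        exact ⟨hW, ⟨z, hzV0, hzW⟩⟩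
      | succ n ih =>
        rw [hFsucc]
        refine (ih.biUnion fun V hV => h4 V (hFsub n hV)).subset ?_
        rintro W ⟨hW, V, hV, hVW⟩
        simp only [mem_iUnion]
        exact ⟨V, hV, hW, hVW⟩
    have hreach : ∀ z', Relation.ReflTransGen r z z' → ∃ n, ∃ V ∈ F n, z' ∈ V := by
      intro z' h
      induction h with
      | refl =>
        obtain ⟨V, hV, hzV⟩ := hcov z
        exact ⟨0, V, ⟨hV, hzV⟩, hzV⟩
      | tail _ h5 ih =>
        obtain ⟨n, V, hV, hyV⟩ := ih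
        obtain ⟨V', hV', ha, hb⟩ := h5
        exact ⟨n + 1, V', ⟨hV', V, hV, ⟨_, hyV, ha⟩⟩, hb⟩
    have hch : ∀ V : Set M, ∃ y : M, V ∈ 𝒱 → V ⊆ O y := by
      intro V
      by_cases hV : V ∈ 𝒱
      · obtain ⟨U, ⟨y, rfl⟩, hVU⟩ := h3 V hV
        exact ⟨y, fun _ => hVU⟩
      · exact ⟨z, fun h => absurd h hV⟩
    choose g hg using hch
    have hcount : (g '' (⋃ n, F n)).Countable :=
      (countable_iUnion fun n => (hFfin n).countable).image g
    have hne : (g '' (⋃ n, F n)).Nonempty := by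
      obtain ⟨V, hV, hzV⟩ := hcov z
      exact ⟨g V, V, mem_iUnion.2 ⟨0, hV, hzV⟩, rfl⟩
    obtain ⟨ζ, hζ⟩ := hcount.exists_eq_range hne
    refine ⟨ζ, ?_⟩
    intro z' hz'
    have h5 : Relation.ReflTransGen r z z' := Quotient.exact hz'.symm
    obtain ⟨n, V, hV, hz'V⟩ := hreach z' h5
    have h6 : g V ∈ g '' (⋃ n, F n) := ⟨V, mem_iUnion.2 ⟨n, hV⟩, rfl⟩
    rw [hζ] at h6
    obtain ⟨i, hi⟩ := h6
    refine ⟨i, ?_⟩
    rw [hi]
    exact hg V (hFsub n hV) hz'V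

end Pool.Agent.V5helper75.IndProd
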