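import Pool.Agent.V5helper75.IndProd.Rect
import Pool.Agent.V5helper75.IndProd.StarFin
import Pool.Agent.V5helper75.IndProd.Glue

/-!
# `Ind (X × Y) ≤ Ind X + Ind Y` for strongly paracompact products
-/

open Set Topology

namespace Pool.Agent.V5helper75.IndProd

universe u v w

variable {X : Type u} {Y : Type v} [TopologicalSpace X] [TopologicalSpace Y]

/-- Partitions in sets which are locally contained in finite unions of rectangles: the countable
case. -/
theorem local_step (hX : FiniteSumTheorem X) (hY : FiniteSumTheorem Y) [T4Space (X × Y)]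
    {K : ℕ} {M : Type w} [TopologicalSpace M] {e : M → X × Y} (he : IsClosedEmbedding e)
    (hloc : ∀ z : M, ∃ N : Set M, IsOpen N ∧ z ∈ N ∧ FR (K + 1) (e '' N))
    {A U : Set M} (hA : IsClosed A) (hU : IsOpen U) (hAU : A ⊆ U) :
    ∃ O : M → Set M, (∀ z, IsOpen (O z)) ∧ (∀ z, z ∈ O z) ∧
      ∀ ζ : ℕ → M, ∃ W : Set M, IsOpen W ∧ ∀ i, (∀ z ∈ O (ζ i), z ∈ A → z ∈ W) ∧
        (∀ z ∈ O (ζ i), z ∈ closure W → z ∈ U) ∧ FR K (e '' (frontier W ∩ O (ζ i))) := by
  classical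
  have : NormalSpace M := he.normalSpace
  obtain ⟨O0, hO0, hAO0, hO0U⟩ := normal_exists_closure_subset hA hU hAU
  -- the rectangles
  have hdata : ∀ z : M, ∃ (P : ℕ → Set X) (Q : ℕ → Set Y) (U1 V1 : Set X) (U2 V2 : Set Y),
      IsFilt P ∧ IsFilt Q ∧ IsOpen U1 ∧ IsOpen U2 ∧ IsOpen V1 ∧ IsOpen V2 ∧
      closure V1 ⊆ U1 ∧ closure V2 ⊆ U2 ∧ (e z).1 ∈ V1 ∧ (e z).2 ∈ V2 ∧
      (∀ y, e y ∈ U1 ×ˢ U2 → e y ∈ TT P Q (K + 1)) ∧
      (e ⁻¹' (U1 ×ˢ U2) ⊆ U ∨ e ⁻¹' (U1 ×ˢ U2) ⊆ (closure O0)ᶜ) := by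
    intro z
    obtain ⟨N, hN, hzN, P, Q, hP, hQ, hPQ⟩ := hloc z
    obtain ⟨G, hG, hzG, hGN, hGU⟩ : ∃ G : Set M, IsOpen G ∧ z ∈ G ∧ G ⊆ N ∧
        (G ⊆ U ∨ G ⊆ (closure O0)ᶜ) := by
      by_cases hzU : z ∈ U
      · exact ⟨N ∩ U, hN.inter hU, ⟨hzN, hzU⟩, inter_subset_left, Or.inl inter_subset_right⟩
      · exact ⟨N ∩ (closure O0)ᶜ, hN.inter isClosed_closure.isOpen_compl,
          ⟨hzN, fun h => hzU (hO0U h)⟩, inter_subset_left, Or.inr inter_subset_right⟩
    obtain ⟨G', hG', rfl⟩ := he.isInducing.isOpen_iff.1 hG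
    obtain ⟨U1, U2, hU1, hU2, hz1, hz2, hUG⟩ := isOpen_prod_iff.1 hG' (e z).1 (e z).2 hzG
    have hW : ∃ W' : Set (X × Y), IsOpen W' ∧ e z ∈ W' ∧ closure W' ⊆ U1 ×ˢ U2 := by
      have h1 : U1 ×ˢ U2 ∈ 𝓝 (e z) := (hU1.prod hU2).mem_nhds ⟨hz1, hz2⟩
      obtain ⟨t, ht1, ht2, ht3⟩ := exists_mem_nhds_isClosed_subset h1
      refine ⟨interior t, isOpen_interior, mem_interior_iff_mem_nhds.2 ht1, ?_⟩
      exact (closure_minimal interior_subset ht2).trans ht3
    obtain ⟨W', hW'1, hW'2, hW'3⟩ := hW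
    obtain ⟨V1, V2, hV1, hV2, hv1, hv2, hVW⟩ := isOpen_prod_iff.1 hW'1 (e z).1 (e z).2 hW'2
    have hcl : closure V1 ×ˢ closure V2 ⊆ U1 ×ˢ U2 := by
      rw [← closure_prod_eq]
      exact (closure_mono hVW).trans hW'3
    refine ⟨P, Q, U1, V1, U2, V2, hP, hQ, hU1, hU2, hV1, hV2, ?_, ?_, hv1, hv2, ?_, ?_⟩
    · intro x hx
      exact (hcl (show (x, (e z).2) ∈ _ from ⟨hx, subset_closure hv2⟩)).1
    · intro y hy
      exact (hcl (show ((e z).1, y) ∈ _ from ⟨subset_closure hv1, hy⟩)).2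
    · intro y hy
      exact hPQ ⟨y, hGN (hUG hy), rfl⟩
    · rcases hGU with h | h
      · exact Or.inl fun y hy => h (hUG hy)
      · exact Or.inr fun y hy => h (hUG hy)
  choose P Q U1 V1 U2 V2 hP hQ hU1 hU2 hV1 hV2 hc1 hc2 hm1 hm2 hTT hGU using hdata
  -- the separating sets
  have hsep : ∀ z z' : M, ∃ R : Set (X × Y), IsOpen R ∧ V1 z' ×ˢ V2 z' ⊆ R ∧
      closure (TT (P z) (Q z) (K + 1) ∩ R) ⊆ U1 z' ×ˢ U2 z' ∧
      FR K (closure (TT (P z) (Q z) (K + 1) ∩ R) \ R) := fun z z' =>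
    rect_sep hX hY (hP z) (hQ z) isClosed_closure isClosed_closure (hV1 z') (hV2 z') (hU1 z')
      (hU2 z') subset_closure subset_closure (hc1 z') (hc2 z')
  choose RR hR1 hR2 hR3 hR4 using hsep
  refine ⟨fun z => e ⁻¹' (V1 z ×ˢ V2 z), fun z => ((hV1 z).prod (hV2 z)).preimage he.continuous,
    fun z => ⟨hm1 z, hm2 z⟩, ?_⟩
  intro ζ
  let G : M → Set M := fun z => e ⁻¹' (U1 z ×ˢ U2 z)
  have hGo : ∀ z, IsOpen (G z) := fun z => ((hU1 z).prod (hU2 z)).preimage he.continuous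
  have hOG : ∀ z, e ⁻¹' (V1 z ×ˢ V2 z) ⊆ G z := fun z y hy =>
    ⟨hc1 z (subset_closure hy.1), hc2 z (subset_closure hy.2)⟩
  let O' : ℕ → Set M := fun n => Nat.casesOn n O0 fun i => e ⁻¹' (V1 (ζ i) ×ˢ V2 (ζ i))
  let B' : ℕ → Set M := fun n => Nat.casesOn n Uᶜ fun i => (G (ζ i))ᶜ
  let R' : ℕ → ℕ → Set M := fun n m => Nat.casesOn n ∅ fun i => Nat.casesOn m
    (if G (ζ i) ⊆ U then univ else ∅) fun j => e ⁻¹' (RR (ζ i) (ζ j)) ∩ G (ζ i)
  have hR'0 : ∀ i, R' (i + 1) 0 = if G (ζ i) ⊆ U then univ else ∅ := fun i => rfl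
  have hR's : ∀ i j, R' (i + 1) (j + 1) = e ⁻¹' (RR (ζ i) (ζ j)) ∩ G (ζ i) := fun i j => rfl
  have hclR : ∀ i j, ∀ z ∈ closure (R' (i + 1) (j + 1)),
      e z ∈ closure (TT (P (ζ i)) (Q (ζ i)) (K + 1) ∩ RR (ζ i) (ζ j)) := by
    intro i j z hz
    rw [hR's] at hz
    have h1 : MapsTo e (e ⁻¹' (RR (ζ i) (ζ j)) ∩ G (ζ i))
        (TT (P (ζ i)) (Q (ζ i)) (K + 1) ∩ RR (ζ i) (ζ j)) :=
      fun y hy => ⟨hTT (ζ i) y hy.2, hy.1⟩
    exact h1.closure he.continuous hz
  obtain ⟨W, hW, hW'⟩ := exists_glue (O := O') (B := B') (R := R')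
    (by
      intro i
      rcases i with _ | i
      · exact hO0
      · exact ((hV1 _).prod (hV2 _)).preimage he.continuous)
    (by
      intro i j hij
      rcases i with _ | i
      · omega
      rcases j with _ | j
      · rw [hR'0]
        split_ifs
        · exact isOpen_univ
        · exact isOpen_empty
      · rw [hR's]
        exact ((hR1 _ _).preimage he.continuous).inter (hGo _))
    (by
      intro i z hz hzB
      rcases i with _ | i
      · exact hzB (hO0U (subset_closure hz))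
      · exact hzB (hOG _ hz))
    (by
      intro i j hij z hz
      rcases i with _ | i
      · omega
      by_cases hzG : z ∈ G (ζ i)
      · left
        rcases j with _ | j
        · rw [hR'0]
          rcases hGU (ζ i) with h | h
          · rw [if_pos h]; trivial
          · exact absurd (subset_closure hz) (h hzG)
        · exact ⟨hR2 _ _ hz, hzG⟩
      · right
        exact hzG)
    (by
      intro i j hij z hz
      rcases i with _ | i
      · omega
      obtain ⟨hz1, hz2⟩ := hz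
      rcases j with _ | j
      · rw [hR'0] at hz1
        split_ifs at hz1 with h
        · intro hzG
          exact hz2 (h hzG)
        · simp at hz1
      · exact absurd (hR3 _ _ (hclR i j z hz1)) hz2)
  refine ⟨W, hW, ?_⟩
  intro i
  obtain ⟨h1, h2, h3⟩ := hW' i
  refine ⟨fun z hz hzA => h1 z hz (hAO0 hzA), fun z hz hzc => ?_, ?_⟩
  · by_contra hzU
    exact h2 z hz hzc hzU
  · have hfr : FR K (⋃ q ∈ Finset.range (i + 1) ×ˢ Finset.range (i + 1),
        (closure (TT (P (ζ q.1)) (Q (ζ q.1)) (K + 1) ∩ RR (ζ q.1) (ζ q.2)) \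
          RR (ζ q.1) (ζ q.2))) :=
      fr_biUnion hX hY _ fun q _ => hR4 _ _
    refine hfr.mono ?_
    rintro _ ⟨z, ⟨hzf, hzO⟩, rfl⟩
    obtain ⟨j, l, hjl, hl, hzj, hzB⟩ := h3 z hzO hzf
    obtain ⟨l, rfl⟩ : ∃ k, l = k + 1 := ⟨l - 1, by omega⟩
    have hzG : z ∈ G (ζ l) := by
      by_contra h
      exact hzB h
    rcases j with _ | j
    · rw [hR'0] at hzj
      split_ifs at hzj <;> simp at hzj
    · simp only [mem_iUnion, exists_prop, Finset.mem_product, Finset.mem_range]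
      refine ⟨(l, j), ⟨by omega, by omega⟩, hclR l j z (frontier_subset_closure hzj), ?_⟩
      intro hzR
      have hop : IsOpen (R' (l + 1) (j + 1)) :=
        ((hR1 _ _).preimage he.continuous).inter (hGo _)
      rw [hop.frontier_eq] at hzj
      exact hzj.2 ⟨hzR, hzG⟩

/-- **Main lemma.** -/
theorem indLT_of_local (hX : FiniteSumTheorem X) (hY : FiniteSumTheorem Y) [T4Space (X × Y)]
    (hZ : StronglyParacompact (X × Y)) :
    ∀ (K : ℕ) (M : Type w) [TopologicalSpace M] (e : M → X × Y), IsClosedEmbedding e →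
      (∀ z : M, ∃ N : Set M, IsOpen N ∧ z ∈ N ∧ FR K (e '' N)) → IndLT K M
  | 0, M, _, e, he, hloc => by
      refine ⟨fun z => ?_⟩
      obtain ⟨N, hN, hzN, hF⟩ := hloc z
      have := fr_zero hF
      rw [image_eq_empty] at this
      rw [this] at hzN
      exact hzN
  | K + 1, M, _, e, he, hloc => by
      intro A U hA hU hAU
      obtain ⟨O, hO1, hO2, hO3⟩ := local_step hX hY he hloc hA hU hAU
      obtain ⟨C, κ, hκ1, hκ2⟩ := (hZ.of_closedEmbedding he).exists_partition hO1 hO2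
      choose ζ hζ using hκ2
      choose W hW1 hW2 using fun z => hO3 (ζ z)
      -- choose a representative of each class
      let g : Set.range κ → M := fun c => c.2.choose
      have hg : ∀ c : Set.range κ, κ (g c) = c := fun c => c.2.choose_spec
      let rep : M → M := fun z => g ⟨κ z, z, rfl⟩
      have hrep1 : ∀ z, κ (rep z) = κ z := fun z => hg ⟨κ z, z, rfl⟩
      have hrep2 : ∀ z z', κ z' = κ z → rep z' = rep z := by
        intro z z' h
        have : (⟨κ z', z', rfl⟩ : Set.range κ) = ⟨κ z, z, rfl⟩ := Subtype.ext h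
        change g _ = g _
        rw [this]
      let V : Set M := {z | z ∈ W (rep z)}
      have hag : ∀ z, AgreeOn {z' | κ z' = κ z} V (W (rep z)) := by
        intro z z' hz'
        change z' ∈ W (rep z') ↔ _
        rw [hrep2 z z' hz']
      have hVo : IsOpen V := by
        rw [isOpen_iff_mem_nhds]
        intro z hz
        filter_upwards [(hκ1 z).mem_nhds rfl, (hW1 (rep z)).mem_nhds hz] with z' h1 h2
        exact (hag z z' h1).2 h2
      have hVW : ∀ z, ∃ i, z ∈ O (ζ (rep z) i) := fun z => hζ (rep z) z (hrep1 z).symm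
      refine ⟨V, hVo, ?_, ?_, ?_⟩
      · intro z hz
        obtain ⟨i, hi⟩ := hVW z
        exact (hW2 (rep z) i).1 z hi hz
      · intro z hz
        obtain ⟨i, hi⟩ := hVW z
        exact (hW2 (rep z) i).2.1 z hi (((hag z).closure (hκ1 z) z rfl).1 hz)
      · refine indLT_of_local hX hY hZ K (frontier V) (fun z => e z.1)
          (he.comp isClosed_frontier.isClosedEmbedding_subtypeVal) ?_
        rintro ⟨z, hz⟩
        obtain ⟨i, hi⟩ := hVW z
        refine ⟨Subtype.val ⁻¹' (O (ζ (rep z) i) ∩ {z' | κ z' = κ z}),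
          ((hO1 _).inter (hκ1 z)).preimage continuous_subtype_val, ⟨hi, rfl⟩, ?_⟩
        refine (hW2 (rep z) i).2.2.mono ?_
        rintro _ ⟨⟨y, hy⟩, ⟨hy1, hy2⟩, rfl⟩
        exact ⟨y, ⟨((hag z).frontier (hκ1 z) y hy2).1 hy, hy1⟩, rfl⟩

end Pool.Agent.V5helper75.IndProd
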