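import Pool.Agent.V5helper75.IndProd.Defs

/-!
# Unions of closed rectangles
-/

open Set Topology

namespace Pool.Agent.V5helper75.IndProd

universe u v w

variable {X : Type u} {Y : Type v} [TopologicalSpace X] [TopologicalSpace Y]

theorem IndLT.set_congr {n : ℕ} {s t : Set X} (h : s = t) (hs : IndLT n s) : IndLT n t := by
  subst h
  exact hs

/-- a closed subset `P` with `Ind P ≤ a` has partitions of smaller dimension -/
theorem exists_cut {P C U : Set X} (hP : IsClosed P) {a : ℕ} (hd : IndLT (a + 1) P)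
    (hC : IsClosed C) (hU : IsOpen U) (hCU : C ⊆ U) :
    ∃ O : Set X, IsOpen O ∧ C ∩ P ⊆ O ∧ closure (P ∩ O) ⊆ U ∧
      IndLT a (closure (P ∩ O) \ O : Set X) := by
  obtain ⟨V, hV1, hV2, hV3, hV4⟩ := hd (Subtype.val ⁻¹' C) (Subtype.val ⁻¹' U)
    (hC.preimage continuous_subtype_val) (hU.preimage continuous_subtype_val)
    (preimage_mono hCU)
  obtain ⟨O, hO, rfl⟩ := isOpen_induced_iff.1 hV1
  have hemb := hP.isClosedEmbedding_subtypeVal
  have h1 : P ∩ O = Subtype.val '' (Subtype.val ⁻¹' O : Set P) := by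
    rw [Subtype.image_preimage_coe]
  have h2 : closure (P ∩ O) = Subtype.val '' (closure (Subtype.val ⁻¹' O : Set P)) := by
    rw [h1, hemb.closure_image_eq]
  refine ⟨O, hO, ?_, ?_, ?_⟩
  · rintro x ⟨hx1, hx2⟩
    exact hV2 (show (⟨x, hx2⟩ : P) ∈ Subtype.val ⁻¹' C from hx1)
  · rw [h2]
    rintro _ ⟨y, hy, rfl⟩
    exact hV3 hy
  · have h3 : Subtype.val '' (frontier (Subtype.val ⁻¹' O : Set P)) = closure (P ∩ O) \ O := by
      rw [hV1.frontier_eq, h2]
      ext x
      constructor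
      · rintro ⟨y, ⟨hy1, hy2⟩, rfl⟩
        exact ⟨⟨y, hy1, rfl⟩, hy2⟩
      · rintro ⟨⟨y, hy1, rfl⟩, hy2⟩
        exact ⟨y, ⟨hy1, hy2⟩, rfl⟩
    exact (hV4.homeo (hemb.isEmbedding.homeomorphImage _)).homeo (Homeomorph.setCongr h3)

/-- an increasing sequence of closed sets `P a` with `Ind (P a) ≤ a` -/
def IsFilt (P : ℕ → Set X) : Prop :=
  (∀ a, IsClosed (P a)) ∧ Monotone P ∧ ∀ a, IndLT (a + 1) (P a)

theorem IsFilt.union (hX : FiniteSumTheorem X) {P Q : ℕ → Set X} (hP : IsFilt P)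
    (hQ : IsFilt Q) : IsFilt fun a => P a ∪ Q a :=
  ⟨fun a => (hP.1 a).union (hQ.1 a), fun _ _ h => union_subset_union (hP.2.1 h) (hQ.2.1 h),
    fun a => hX.union (hP.1 a) (hQ.1 a) (hP.2.2 a) (hQ.2.2 a)⟩

theorem isFilt_empty : IsFilt fun _ => (∅ : Set X) :=
  ⟨fun _ => isClosed_empty, fun _ _ _ => Subset.rfl, fun _ => IndLT.of_isEmpty inferInstance⟩

/-- the filtration which jumps from `∅` to `P` at the place `a` -/
theorem isFilt_jump {P : Set X} (hP : IsClosed P) {a : ℕ} (h : IndLT (a + 1) P) :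
    IsFilt fun c => if c < a then (∅ : Set X) else P := by
  refine ⟨?_, ?_, ?_⟩
  · intro c
    dsimp only
    split_ifs
    · exact isClosed_empty
    · exact hP
  · intro c d hcd
    dsimp only
    split_ifs with h1 h2 h2
    · exact Subset.rfl
    · exact empty_subset _
    · omega
    · exact Subset.rfl
  · intro c
    by_cases h1 : c < a
    · exact IndLT.set_congr (if_pos h1).symm (IndLT.of_isEmpty inferInstance)
    · exact IndLT.set_congr (if_neg h1).symm (h.mono (by omega))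

/-- finite unions of closed sets of bounded dimension -/
theorem indLT_biUnion (hX : FiniteSumTheorem X) {F : ℕ → Set X} {n : ℕ} :
    ∀ m : ℕ, (∀ c < m, IsClosed (F c)) → (∀ c < m, IndLT n (F c)) →
      IsClosed (⋃ c ∈ Finset.range m, F c) ∧ IndLT n (⋃ c ∈ Finset.range m, F c : Set X)
  | 0, _, _ => by
      have h : (⋃ c ∈ Finset.range 0, F c : Set X) = ∅ := by simp
      rw [h]
      exact ⟨isClosed_empty, IndLT.of_isEmpty inferInstance⟩
  | m + 1, h1, h2 => by
      obtain ⟨h3, h4⟩ := indLT_biUnion hX m (fun c hc => h1 c (by omega))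
        (fun c hc => h2 c (by omega))
      have h : (⋃ c ∈ Finset.range (m + 1), F c : Set X) =
          (⋃ c ∈ Finset.range m, F c) ∪ F m := by
        ext x
        simp only [mem_iUnion, Finset.mem_range, mem_union, exists_prop]
        constructor
        · rintro ⟨c, hc, hx⟩
          rcases Nat.lt_succ_iff_lt_or_eq.1 hc with h | rfl
          · exact Or.inl ⟨c, h, hx⟩
          · exact Or.inr hx
        · rintro (⟨c, hc, hx⟩ | hx)
          · exact ⟨c, by omega, hx⟩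
          · exact ⟨m, by omega, hx⟩
      rw [h]
      exact ⟨h3.union (h1 m (by omega)), hX.union h3 (h1 m (by omega)) h4 (h2 m (by omega))⟩

/-- `Φ c` closed with `Ind (Φ c) ≤ c - 1` gives a filtration -/
theorem isFilt_bd (hX : FiniteSumTheorem X) {F : ℕ → Set X} (h1 : ∀ c, IsClosed (F c))
    (h2 : ∀ c, IndLT c (F c)) : IsFilt fun a => ⋃ c ∈ Finset.range (a + 2), F c := by
  refine ⟨?_, ?_, ?_⟩
  · intro a
    exact (indLT_biUnion hX (n := a + 1) (a + 2) (fun c _ => h1 c)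
      (fun c hc => (h2 c).mono (by omega))).1
  · intro a b hab
    refine iUnion₂_mono' ?_
    intro c hc
    refine ⟨c, ?_, Subset.rfl⟩
    simp only [Finset.mem_range] at hc ⊢
    omega
  · intro a
    exact (indLT_biUnion hX (n := a + 1) (a + 2) (fun c _ => h1 c)
      (fun c hc => (h2 c).mono (by omega))).2

/-- the union of the closed rectangles `P a × Q b`, `a + b = K - 1` -/
def TT (P : ℕ → Set X) (Q : ℕ → Set Y) (K : ℕ) : Set (X × Y) :=
  ⋃ a ∈ Finset.range K, P a ×ˢ Q (K - 1 - a)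

theorem mem_TT {P : ℕ → Set X} {Q : ℕ → Set Y} {K : ℕ} {p : X × Y} :
    p ∈ TT P Q K ↔ ∃ a b, a + b + 1 = K ∧ p.1 ∈ P a ∧ p.2 ∈ Q b := by
  simp only [TT, mem_iUnion, Finset.mem_range, exists_prop, mem_prod]
  constructor
  · rintro ⟨a, ha, h1, h2⟩
    exact ⟨a, K - 1 - a, by omega, h1, h2⟩
  · rintro ⟨a, b, hab, h1, h2⟩
    refine ⟨a, by omega, h1, ?_⟩
    have : K - 1 - a = b := by omega
    rwa [this]

theorem isClosed_TT {P : ℕ → Set X} {Q : ℕ → Set Y} (hP : IsFilt P) (hQ : IsFilt Q) (K : ℕ) :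
    IsClosed (TT P Q K) :=
  isClosed_biUnion_finset fun a _ => (hP.1 a).prod (hQ.1 _)

theorem TT_mono {P P' : ℕ → Set X} {Q Q' : ℕ → Set Y} (h1 : ∀ a, P a ⊆ P' a)
    (h2 : ∀ a, Q a ⊆ Q' a) (K : ℕ) : TT P Q K ⊆ TT P' Q' K := by
  intro p hp
  rw [mem_TT] at hp ⊢
  obtain ⟨a, b, hab, h3, h4⟩ := hp
  exact ⟨a, b, hab, h1 a h3, h2 b h4⟩

/-- `T` is contained in a finite union of closed rectangles `P × Q` with
`Ind P + Ind Q ≤ K - 1` -/
def FR (K : ℕ) (T : Set (X × Y)) : Prop :=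
  ∃ (P : ℕ → Set X) (Q : ℕ → Set Y), IsFilt P ∧ IsFilt Q ∧ T ⊆ TT P Q K

theorem FR.mono {K : ℕ} {S T : Set (X × Y)} (h : FR K T) (hST : S ⊆ T) : FR K S := by
  obtain ⟨P, Q, hP, hQ, hT⟩ := h
  exact ⟨P, Q, hP, hQ, hST.trans hT⟩

theorem fr_zero {T : Set (X × Y)} (h : FR 0 T) : T = ∅ := by
  obtain ⟨P, Q, hP, hQ, hT⟩ := h
  rw [eq_empty_iff_forall_notMem]
  intro p hp
  obtain ⟨a, b, hab, -⟩ := mem_TT.1 (hT hp)
  omega

theorem fr_empty (K : ℕ) : FR K (∅ : Set (X × Y)) :=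
  ⟨fun _ => ∅, fun _ => ∅, isFilt_empty, isFilt_empty, empty_subset _⟩

theorem FR.union (hX : FiniteSumTheorem X) (hY : FiniteSumTheorem Y) {K : ℕ}
    {S T : Set (X × Y)} (hS : FR K S) (hT : FR K T) : FR K (S ∪ T) := by
  obtain ⟨P, Q, hP, hQ, h⟩ := hS
  obtain ⟨P', Q', hP', hQ', h'⟩ := hT
  refine ⟨_, _, hP.union hX hP', hQ.union hY hQ', ?_⟩
  refine union_subset (h.trans (TT_mono ?_ ?_ K)) (h'.trans (TT_mono ?_ ?_ K))
  · exact fun a => subset_union_left
  · exact fun a => subset_union_left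
  · exact fun a => subset_union_right
  · exact fun a => subset_union_right

theorem fr_rect {a b K : ℕ} (hK : a + b + 1 = K) {P : Set X} {Q : Set Y} (hP : IsClosed P)
    (hQ : IsClosed Q) (h1 : IndLT (a + 1) P) (h2 : IndLT (b + 1) Q) : FR K (P ×ˢ Q) := by
  refine ⟨_, _, isFilt_jump hP h1, isFilt_jump hQ h2, ?_⟩
  rintro p ⟨hp1, hp2⟩
  rw [mem_TT]
  refine ⟨a, b, hK, ?_, ?_⟩
  · simpa using hp1
  · simpa using hp2

theorem fr_biUnion (hX : FiniteSumTheorem X) (hY : FiniteSumTheorem Y) {K : ℕ} {ι : Type*}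
    (s : Finset ι) {S : ι → Set (X × Y)} (h : ∀ i ∈ s, FR K (S i)) : FR K (⋃ i ∈ s, S i) := by
  classical
  induction s using Finset.induction_on with
  | empty => simpa using fr_empty K
  | insert i s hi ih =>
    rw [Finset.set_biUnion_insert]
    exact (h i (Finset.mem_insert_self _ _)).union hX hY
      (ih fun j hj => h j (Finset.mem_insert_of_mem hj))

/-- **Partitions in finite unions of closed rectangles.** -/
theorem rect_sep (hX : FiniteSumTheorem X) (hY : FiniteSumTheorem Y) {K : ℕ}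
    {P : ℕ → Set X} {Q : ℕ → Set Y} (hP : IsFilt P) (hQ : IsFilt Q)
    {C O U : Set X} {C' O' U' : Set Y} (hC : IsClosed C) (hC' : IsClosed C')
    (hO : IsOpen O) (hO' : IsOpen O') (hU : IsOpen U) (hU' : IsOpen U')
    (hOC : O ⊆ C) (hOC' : O' ⊆ C') (hCU : C ⊆ U) (hCU' : C' ⊆ U') :
    ∃ R : Set (X × Y), IsOpen R ∧ O ×ˢ O' ⊆ R ∧ closure (TT P Q (K + 1) ∩ R) ⊆ U ×ˢ U' ∧
      FR K (closure (TT P Q (K + 1) ∩ R) \ R) := by
  choose H hH1 hH2 hH3 hH4 using fun a => exists_cut (hP.1 a) (hP.2.2 a) hC hU hCU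
  choose J hJ1 hJ2 hJ3 hJ4 using fun b => exists_cut (hQ.1 b) (hQ.2.2 b) hC' hU' hCU'
  set T := TT P Q (K + 1) with hT
  set D := TT P Q K with hD
  set E : Set (X × Y) := ⋂ a ∈ Finset.range (K + 1),
    ((P a ×ˢ Q (K - a))ᶜ ∪ (H a ×ˢ J (K - a))) with hE
  have hEo : IsOpen E := isOpen_biInter_finset fun a _ =>
    ((hP.1 a).prod (hQ.1 _)).isOpen_compl.union ((hH1 a).prod (hJ1 _))
  have hmemE : ∀ p : X × Y, p ∈ E ↔ ∀ a b, a + b = K → p.1 ∈ P a → p.2 ∈ Q b →
      p.1 ∈ H a ∧ p.2 ∈ J b := by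
    intro p
    simp only [hE, mem_iInter, Finset.mem_range, mem_union, mem_compl_iff, mem_prod]
    constructor
    · intro h a b hab h1 h2
      have hb : K - a = b := by omega
      rcases h a (by omega) with h3 | h3
      · rw [hb] at h3
        exact absurd ⟨h1, h2⟩ h3
      · rwa [hb] at h3
    · intro h a ha
      by_cases h1 : p.1 ∈ P a ∧ p.2 ∈ Q (K - a)
      · exact Or.inr (h a (K - a) (by omega) h1.1 h1.2)
      · exact Or.inl h1
  -- uniqueness of the rectangle outside of `D`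
  have huniq : ∀ p : X × Y, p ∉ D → ∀ a b a' b', a + b = K → a' + b' = K → p.1 ∈ P a →
      p.2 ∈ Q b → p.1 ∈ P a' → p.2 ∈ Q b' → a = a' := by
    intro p hp a b a' b' hab hab' h1 h2 h3 h4
    by_contra hne
    apply hp
    rw [hD, mem_TT]
    rcases Nat.lt_or_gt_of_ne hne with h | h
    · refine ⟨a, K - 1 - a, by omega, h1, ?_⟩
      exact hQ.2.1 (by omega : b' ≤ K - 1 - a) h4
    · refine ⟨a', K - 1 - a', by omega, h3, ?_⟩
      exact hQ.2.1 (by omega : b ≤ K - 1 - a') h2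
  set R : Set (X × Y) := (O ×ˢ O') ∪ (Dᶜ ∩ E) with hR
  have hDc : IsClosed D := isClosed_TT hP hQ K
  have hTc : IsClosed T := isClosed_TT hP hQ (K + 1)
  have hRo : IsOpen R := (hO.prod hO').union (hDc.isOpen_compl.inter hEo)
  -- the pieces
  have hTR : T ∩ R ⊆ ⋃ a ∈ Finset.range (K + 1), (P a ∩ H a) ×ˢ (Q (K - a) ∩ J (K - a)) := by
    rintro p ⟨hpT, hpR⟩
    obtain ⟨a, b, hab, h1, h2⟩ := mem_TT.1 hpT
    have hb : K - a = b := by omega
    simp only [mem_iUnion, Finset.mem_range, exists_prop]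
    refine ⟨a, by omega, ?_⟩
    rw [hb]
    rcases hpR with h | h
    · exact ⟨⟨h1, hH2 a ⟨hOC h.1, h1⟩⟩, ⟨h2, hJ2 b ⟨hOC' h.2, h2⟩⟩⟩
    · have := (hmemE p).1 h.2 a b (by omega) h1 h2
      exact ⟨⟨h1, this.1⟩, ⟨h2, this.2⟩⟩
  have hcl : closure (T ∩ R) ⊆
      ⋃ a ∈ Finset.range (K + 1), closure (P a ∩ H a) ×ˢ closure (Q (K - a) ∩ J (K - a)) := by
    refine (closure_mono hTR).trans ?_
    rw [Finset.closure_biUnion]
    simp only [closure_prod_eq]
    exact Subset.rfl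
  refine ⟨R, hRo, subset_union_left, ?_, ?_⟩
  · intro p hp
    have := hcl hp
    simp only [mem_iUnion, exists_prop] at this
    obtain ⟨a, -, h1, h2⟩ := this
    exact ⟨hH3 a h1, hJ3 _ h2⟩
  · set F : ℕ → Set X := fun a => closure (P a ∩ H a) \ H a with hF
    set G : ℕ → Set Y := fun b => closure (Q b ∩ J b) \ J b with hG
    have hF1 : IsFilt fun a => ⋃ c ∈ Finset.range (a + 2), F c :=
      isFilt_bd hX (fun c => isClosed_closure.sdiff (hH1 c)) hH4
    have hG1 : IsFilt fun a => ⋃ c ∈ Finset.range (a + 2), G c :=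
      isFilt_bd hY (fun c => isClosed_closure.sdiff (hJ1 c)) hJ4
    refine ⟨_, _, hP.union hX hF1, hQ.union hY hG1, ?_⟩
    rintro p ⟨hp1, hp2⟩
    have hpT : p ∈ T := by
      have : closure (T ∩ R) ⊆ T := closure_minimal inter_subset_left hTc
      exact this hp1
    by_cases hpD : p ∈ D
    · exact TT_mono (fun a => subset_union_left) (fun a => subset_union_left) K hpD
    obtain ⟨a, b, hab, h1, h2⟩ := mem_TT.1 hpT
    have hpE : ¬ (p.1 ∈ H a ∧ p.2 ∈ J b) := by
      intro h3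
      apply hp2
      refine Or.inr ⟨hpD, (hmemE p).2 ?_⟩
      intro a' b' hab' h4 h5
      have haa : a = a' := huniq p hpD a b a' b' (by omega) hab' h1 h2 h4 h5
      have hbb : b = b' := by omega
      rw [← haa, ← hbb]
      exact h3
    have h4 := hcl hp1
    simp only [mem_iUnion, Finset.mem_range, exists_prop] at h4
    obtain ⟨a', ha', h5, h6⟩ := h4
    have h5' : p.1 ∈ P a' := closure_minimal inter_subset_left (hP.1 a') h5
    have h6' : p.2 ∈ Q (K - a') := closure_minimal inter_subset_left (hQ.1 _) h6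
    have haa : a = a' := huniq p hpD a b a' (K - a') (by omega) (by omega) h1 h2 h5' h6'
    subst haa
    have hb : K - a = b := by omega
    rw [hb] at h6
    rw [mem_TT]
    by_cases h7 : p.1 ∈ H a
    · have h8 : p.2 ∉ J b := fun h => hpE ⟨h7, h⟩
      have h9 : p.2 ∈ G b := ⟨h6, h8⟩
      rcases b with _ | b
      · exact absurd h9 fun h => (hJ4 0).elim ⟨_, h⟩
      · refine ⟨a, b, by omega, Or.inl h1, Or.inr ?_⟩
        simp only [mem_iUnion, Finset.mem_range, exists_prop]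
        exact ⟨b + 1, by omega, h9⟩
    · have h9 : p.1 ∈ F a := ⟨h5, h7⟩
      rcases a with _ | a
      · exact absurd h9 fun h => (hH4 0).elim ⟨_, h⟩
      · refine ⟨a, b, by omega, Or.inr ?_, Or.inl h2⟩
        simp only [mem_iUnion, Finset.mem_range, exists_prop]
        exact ⟨a + 1, by omega, h9⟩

end Pool.Agent.V5helper75.IndProd
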